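import Pool.Agent.Helper14.GH.HW

/-!
Project PGN (MP_b8862a_ag): generic members of families of polarised Hodge structures have only scalar endomorphisms;
transport of a polarised Hodge structure with a real isometry; elements outside of the Mumford-Tate group.
-/

set_option linter.unusedSectionVars false

open Matrix

namespace MH

variable {n : Type*} [Fintype n] [DecidableEq n]

/-- If no rational matrix except the scalars commutes with all members of the family over a nonempty open set, then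
some member of the family has only scalar endomorphisms. -/
theorem exists_generic27 {T : Type*} [TopologicalSpace T] [BaireSpace T] [Nonempty T] (P : T → ℤ → Matrix n n ℂ)
    (hcont : ∀ p, Continuous fun t => P t p)
    (hgen : ∀ U : Set T, IsOpen U → U.Nonempty → ∀ A : Matrix n n ℚ,
      (∀ t ∈ U, ∀ p, toC A * P t p = P t p * toC A) → ∃ c : ℚ, A = c • (1 : Matrix n n ℚ)) :
    ∃ t, ∀ A : Matrix n n ℚ, (∀ p, toC A * P t p = P t p * toC A) → ∃ c : ℚ, A = c • (1 : Matrix n n ℚ) := by
  classical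
  by_contra hcon
  push Not at hcon
  have hcount : Countable (Matrix n n ℚ) := inferInstanceAs (Countable (n → n → ℚ))
  have hsub : Countable {A : Matrix n n ℚ // ∀ c : ℚ, A ≠ c • (1 : Matrix n n ℚ)} := Subtype.countable
  have hc : ∀ A : {A : Matrix n n ℚ // ∀ c : ℚ, A ≠ c • (1 : Matrix n n ℚ)},
      IsClosed {t : T | ∀ p, toC A.1 * P t p = P t p * toC A.1} := by
    intro A
    simp only [Set.ofPred_forall]
    refine isClosed_iInter fun p => ?_
    exact isClosed_eq ((continuous_const).matrix_mul (hcont p)) ((hcont p).matrix_mul continuous_const)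
  have hU : ⋃ A : {A : Matrix n n ℚ // ∀ c : ℚ, A ≠ c • (1 : Matrix n n ℚ)},
      {t : T | ∀ p, toC A.1 * P t p = P t p * toC A.1} = Set.univ := by
    refine Set.eq_univ_of_forall fun t => ?_
    obtain ⟨A, hA, hne⟩ := hcon t
    exact Set.mem_iUnion.2 ⟨⟨A, hne⟩, hA⟩
  obtain ⟨A, hA⟩ := nonempty_interior_of_iUnion_of_closed hc hU
  obtain ⟨c, h⟩ := hgen _ isOpen_interior hA A.1 fun t ht => interior_subset ht
  exact A.2 c h

/-- the complex matrix of a real matrix -/
noncomputable def rC (g : Matrix n n ℝ) : Matrix n n ℂ := g.map Complex.ofReal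

theorem rC_mul (g h : Matrix n n ℝ) : rC (g * h) = rC g * rC h := by
  ext i j
  simp [rC, Matrix.mul_apply]

theorem rC_one : rC (1 : Matrix n n ℝ) = 1 := by
  unfold rC
  rw [Matrix.map_one _ Complex.ofReal_zero Complex.ofReal_one]

theorem rC_transpose (g : Matrix n n ℝ) : rC gᵀ = (rC g)ᵀ := rfl

theorem rC_conj (g : Matrix n n ℝ) : (rC g).map (starRingEnd ℂ) = rC g := by
  ext i j
  simp [rC]

theorem rC_rat (Q : Matrix n n ℚ) : rC (Q.map (algebraMap ℚ ℝ)) = toC Q := by
  ext i j
  simp [rC, toC]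

theorem star_mulVec_real {g : Matrix n n ℂ} (hg : g.map (starRingEnd ℂ) = g) (u : n → ℂ) :
    star (g *ᵥ u) = g *ᵥ star u := by
  funext i
  simp only [Pi.star_apply, Matrix.mulVec, dotProduct, star_sum, star_mul']
  refine Finset.sum_congr rfl fun j _ => ?_
  congr 1
  have h1 := congrFun (congrFun hg i) j
  rwa [Matrix.map_apply, starRingEnd_apply] at h1

variable {w : ℤ} {Q : Matrix n n ℚ} {S : Finset ℤ} {P : ℤ → Matrix n n ℂ}

/-- transport of a polarised Hodge structure with a real isometry -/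
theorem IsHW.conj27 (H : IsHW w Q S P) {g gi : Matrix n n ℂ} (h1 : g * gi = 1) (h2 : gi * g = 1)
    (hg : g.map (starRingEnd ℂ) = g) (hQ : gᵀ * toC Q * g = toC Q) : IsHW w Q S (fun p => g * P p * gi) := by
  have hgi : gi.map (starRingEnd ℂ) = gi := by
    have e1 : g * gi.map (starRingEnd ℂ) = 1 := by
      have := congrArg (fun X : Matrix n n ℂ => X.map (starRingEnd ℂ)) h1
      simp only [Matrix.map_mul, hg] at this
      rw [this, Matrix.map_one _ (map_zero _) (map_one _)]
    calc gi.map (starRingEnd ℂ) = gi * g * gi.map (starRingEnd ℂ) := by rw [h2, one_mul]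
      _ = gi := by rw [mul_assoc, e1, mul_one]
  refine ⟨fun p q => ?_, fun p hp => ?_, ?_, fun p => ?_, H.symm, fun p q hpq => ?_, fun p v hv hv0 => ?_⟩
  · have e1 : g * P p * gi * (g * P q * gi) = g * (P p * P q) * gi := by
      calc g * P p * gi * (g * P q * gi) = g * P p * (gi * g) * P q * gi := by simp only [mul_assoc]
        _ = g * (P p * P q) * gi := by rw [h2, mul_one]; simp only [mul_assoc]
    rw [e1, H.mul]
    split_ifs <;> simp
  · rw [H.supp p hp]
    simp
  · rw [← Finset.sum_mul, ← Finset.mul_sum, H.sum, mul_one, h1]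
  · rw [Matrix.map_mul, Matrix.map_mul, hg, hgi, H.conj]
  · have e1 : (g * P p * gi)ᵀ * toC Q * (g * P q * gi) = giᵀ * ((P p)ᵀ * (gᵀ * toC Q * g) * P q) * gi := by
      simp only [Matrix.transpose_mul, mul_assoc]
    rw [e1, hQ, H.orth p q hpq]
    simp
  · have e0 : P p *ᵥ (gi *ᵥ v) = gi *ᵥ v := by
      conv_rhs => rw [← hv]
      rw [Matrix.mulVec_mulVec, Matrix.mulVec_mulVec]
      congr 1
      rw [← mul_assoc, ← mul_assoc, h2, one_mul]
    have e1 : v = g *ᵥ (gi *ᵥ v) := by rw [Matrix.mulVec_mulVec, h1, Matrix.one_mulVec]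
    have e2 : gi *ᵥ v ≠ 0 := by
      intro h
      rw [h, Matrix.mulVec_zero] at e1
      exact hv0 e1
    have e3 := H.pos p _ e0 e2
    have e4 : v ⬝ᵥ (toC Q *ᵥ star v) = (gi *ᵥ v) ⬝ᵥ (toC Q *ᵥ star (gi *ᵥ v)) := by
      obtain ⟨u, hu⟩ : ∃ u, gi *ᵥ v = u := ⟨_, rfl⟩
      rw [hu] at e1 ⊢
      rw [e1, star_mulVec_real hg, ← Matrix.vecMul_transpose g u, ← Matrix.dotProduct_mulVec, Matrix.mulVec_mulVec,
        Matrix.mulVec_mulVec]
      simp only [mul_assoc]
      rw [← mul_assoc gᵀ (toC Q) g, hQ]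
    rw [e4]
    exact e3

/-- the ranks do not change -/
theorem rank_conj27 {g gi : Matrix n n ℂ} (h1 : g * gi = 1) (h2 : gi * g = 1) (X : Matrix n n ℂ) :
    (g * X * gi).rank = X.rank := by
  have hg : IsUnit g.det := by
    rw [← Matrix.isUnit_iff_isUnit_det]
    exact ⟨⟨g, gi, h1, h2⟩, rfl⟩
  have hgi : IsUnit gi.det := by
    rw [← Matrix.isUnit_iff_isUnit_det]
    exact ⟨⟨gi, g, h2, h1⟩, rfl⟩
  rw [Matrix.rank_mul_eq_left_of_isUnit_det _ _ hgi, Matrix.rank_mul_eq_right_of_isUnit_det _ _ hg]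

/-- a matrix that does not fix a Hodge tensor is not in the Mumford-Tate group -/
theorem not_mem_MT27 {a b : ℕ} {t : (Fin a ⊕ Fin b → n) → ℚ} (ht : IsHodgeTensor S P a b t) {g : GL n ℂ}
    (hg : actF (slot a b (g : Matrix n n ℂ) ((g⁻¹ : GL n ℂ) : Matrix n n ℂ)) (tC t) ≠ tC t) : g ∉ MT S P :=
  fun h => hg (h a b t ht)

end MH
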