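import Pool.Agent.Helper27.PGN.Fam
import Pool.Agent.Helper94.SH.Fact
import Pool.Agent.Helper94.SH.NotFull
import Pool.Agent.Helper55.UG.TateGQ

/-!
Project PGN (MP_b8862a_ag): the Hodge numbers `s, s², s`: a polarised Hodge structure of weight 2 with only scalar
endomorphisms whose Mumford-Tate group is not the full group (trace zero part of Hermitian forms over `ℚ(i)`).
-/

set_option linter.unusedSectionVars false

open Matrix Kronecker

namespace MH.Her27

variable {κ : Type*} [Fintype κ] [DecidableEq κ]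

theorem card_ne (o : κ) : (Fintype.card κ : ℂ) ≠ 0 := by
  have : 0 < Fintype.card κ := Fintype.card_pos_iff.2 ⟨o⟩
  exact_mod_cast this.ne'

theorem toC_smul27 {n : Type*} [Fintype n] [DecidableEq n] (c : ℚ) (A : Matrix n n ℚ) :
    toC (c • A) = (algebraMap ℚ ℂ c) • toC A := by
  ext i j
  simp [toC]

theorem toC_inj27 {n : Type*} [Fintype n] [DecidableEq n] {A B : Matrix n n ℚ} (h : toC A = toC B) : A = B := by
  ext i j
  have := congrFun (congrFun h i) j
  exact (algebraMap ℚ ℂ).injective this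

theorem end_big (o : κ) {j0 : κ} (hj0 : j0 ≠ o) {W : Set (κ → ℂ)} (hW : IsOpen W) (hne : W.Nonempty)
    (hWq : ∀ z ∈ W, qq o z (star z) ≠ 0) {A : Matrix (κ × κ) (κ × κ) ℚ} (hA : A * ee o = A)
    (h : ∀ z ∈ W, toC A * (GG o z * P0 o 2 * GG o z) = (GG o z * P0 o 2 * GG o z) * toC A) :
    ∃ c : ℚ, A = c • ee o := by
  obtain ⟨z0, h0⟩ := hne
  have hk := card_ne o
  obtain ⟨B, hB⟩ : ∃ B, B = Ph κ * toC A * Phi' κ := ⟨_, rfl⟩
  have h1 : ∀ z ∈ W, B * RR o z (star z) = RR o z (star z) * B := by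
    intro z hz
    have hq := hWq z hz
    have e1 : B * (Ph κ * (GG o z * P0 o 2 * GG o z) * Phi' κ) =
        (Ph κ * (GG o z * P0 o 2 * GG o z) * Phi' κ) * B := by
      rw [hB]
      calc Ph κ * toC A * Phi' κ * (Ph κ * (GG o z * P0 o 2 * GG o z) * Phi' κ) =
            Ph κ * toC A * (Phi' κ * Ph κ) * (GG o z * P0 o 2 * GG o z) * Phi' κ := by simp only [mul_assoc]
        _ = Ph κ * (toC A * (GG o z * P0 o 2 * GG o z)) * Phi' κ := by
            rw [Phi'_mul, mul_one]; simp only [mul_assoc]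
        _ = Ph κ * (GG o z * P0 o 2 * GG o z) * (Phi' κ * Ph κ) * toC A * Phi' κ := by
            rw [h z hz, Phi'_mul, mul_one]; simp only [mul_assoc]
        _ = _ := by simp only [mul_assoc]
    rw [P2_eq hq, mul_smul_comm, smul_mul_assoc] at e1
    have hne : (-((qq o z (star z))⁻¹ ^ 4)) ≠ 0 := neg_ne_zero.2 (pow_ne_zero _ (inv_ne_zero hq))
    exact smul_right_injective _ hne e1
  obtain ⟨c, v, hc⟩ := comm_RR o hj0 B fun z1 => ext_ray o B hW h0 h1 z1
  have hAZ : toC A * ZZ ℂ o = 0 := by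
    have e1 : toC A * toC (ee o) = toC A := by
      rw [← toC_mul, hA]
    rw [← e1, mul_assoc, toC_ee, sub_mul, one_mul, smul_mul_assoc, ZZ_mul_ZZ, smul_smul, inv_mul_cancel₀ hk, one_smul,
      sub_self, mul_zero]
  have hBZ : B * ZZ ℂ o = 0 := by
    rw [hB, mul_assoc, Phi'_ZZ, mul_assoc, hAZ, mul_zero]
  have hv : vecMulVec v (hv ℂ o) = -((c * (Fintype.card κ : ℂ)⁻¹) • ZZ ℂ o) := by
    rw [hc, add_mul, smul_mul_assoc, one_mul] at hBZ
    have e1 : vecMulVec v (Her27.hv ℂ o) * ZZ ℂ o = (Fintype.card κ : ℂ) • vecMulVec v (Her27.hv ℂ o) := by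
      unfold ZZ
      rw [Matrix.vecMulVec_mul_vecMulVec, hv_dot]
      ext a b
      simp only [vecMulVec_apply, Pi.smul_apply, smul_eq_mul, Matrix.smul_apply]
      ring
    rw [e1] at hBZ
    have e2 : (Fintype.card κ : ℂ) • vecMulVec v (Her27.hv ℂ o) = -(c • ZZ ℂ o) :=
      eq_neg_of_add_eq_zero_right hBZ
    have e3 := congrArg (fun X => (Fintype.card κ : ℂ)⁻¹ • X) e2
    simp only [smul_smul, inv_mul_cancel₀ hk, one_smul, smul_neg] at e3
    rw [e3, mul_comm c]
  have hBe : B = c • toC (ee o) := by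
    rw [hc, hv, toC_ee, smul_sub, smul_smul, sub_eq_add_neg]
  have hAe : toC A = c • toC (ee o) := by
    have e1 : toC A = Phi' κ * B * Ph κ := by
      rw [hB]
      calc toC A = (Phi' κ * Ph κ) * toC A * (Phi' κ * Ph κ) := by rw [Phi'_mul, one_mul, mul_one]
        _ = _ := by simp only [mul_assoc]
    rw [e1, hBe, mul_smul_comm, smul_mul_assoc, toC_ee, mul_sub, sub_mul, mul_one, Phi'_mul, mul_smul_comm,
      smul_mul_assoc, Phi'_ZZ, ZZ_Ph]
  have hcr : c = algebraMap ℚ ℂ (A (o, j0) (o, j0)) := by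
    have e1 := congrFun (congrFun hAe (o, j0)) (o, j0)
    have e2 : Her27.hv ℂ o (o, j0) = 0 := by
      rw [hv_apply, if_neg (Ne.symm hj0)]
    rw [toC_ee, Matrix.smul_apply, Matrix.sub_apply, Matrix.smul_apply, Matrix.one_apply_eq, ZZ, vecMulVec_apply, e2,
      smul_eq_mul, smul_eq_mul, mul_zero, mul_zero, sub_zero, mul_one] at e1
    exact e1.symm
  refine ⟨A (o, j0) (o, j0), toC_inj27 ?_⟩
  rw [hAe, hcr, toC_smul27]

/-! ### the parameter space -/

/-- the parameter space -/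
abbrev TT (o : κ) : Type _ := {z : κ → ℂ // qq o z (star z) ≠ 0}

theorem cont_qq (o : κ) : Continuous fun z : κ → ℂ => qq o z (star z) := by
  unfold qq
  simp only [Pi.star_apply]
  fun_prop

theorem isOpen_TT (o : κ) : IsOpen {z : κ → ℂ | qq o z (star z) ≠ 0} :=
  isOpen_ne_fun (cont_qq o) continuous_const

instance (o : κ) : BaireSpace (TT o) := (isOpen_TT o).baireSpace

instance (o : κ) : Nonempty (TT o) := by
  refine ⟨⟨fun i => if i = o then 1 else 0, ?_⟩⟩
  unfold qq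
  rw [Finset.sum_eq_single o]
  · simp [sg]
  · intro i _ hi
    simp [hi]
  · intro h
    exact absurd (Finset.mem_univ _) h

theorem cont_GG (o : κ) : Continuous fun z : TT o => GG o z.1 := by
  have hq : Continuous fun z : TT o => 2 / qq o z.1 (star z.1) :=
    continuous_const.div ((cont_qq o).comp continuous_subtype_val) fun z => z.2
  have hz : ∀ i, Continuous fun z : TT o => z.1 i := fun i => (continuous_apply i).comp continuous_subtype_val
  have h1 : ∀ i j, Continuous fun z : TT o => UU o z.1 i j := by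
    intro i j
    simp only [UU, Matrix.sub_apply, Matrix.smul_apply, smul_eq_mul, MM_apply, Pi.star_apply]
    exact (hq.mul (((hz i).mul ((hz j).star)).mul continuous_const)).sub continuous_const
  have h2 : ∀ i j, Continuous fun z : TT o => UV o z.1 i j := by
    intro i j
    simp only [UV, Matrix.sub_apply, Matrix.smul_apply, smul_eq_mul, MM_apply, Pi.star_apply]
    exact (hq.mul ((((hz i).star).mul (hz j)).mul continuous_const)).sub continuous_const
  unfold GG
  refine (continuous_const.matrix_mul ?_).matrix_mul continuous_const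
  refine continuous_matrix fun a b => ?_
  simp only [kroneckerMap_apply]
  exact (h1 _ _).mul (h2 _ _)

theorem ee_idem (o : κ) : ee o * ee o = ee o := by
  apply toC_inj27
  have hk := card_ne o
  rw [toC_mul, toC_ee, mul_sub, mul_one, sub_mul, one_mul, smul_mul_smul_comm, ZZ_mul_ZZ, smul_smul, mul_assoc,
    inv_mul_cancel₀ hk, mul_one, sub_self, sub_zero]

/-! ### traces -/

theorem ZZ_trace (o : κ) : (ZZ ℂ o).trace = (Fintype.card κ : ℂ) := by
  have h := hv_dot (K := ℂ) o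
  rw [← h]
  simp only [ZZ, Matrix.trace, Matrix.diag, vecMulVec_apply, dotProduct]

theorem trace2 (o : κ) : (R0 o 2).trace = (Fintype.card κ : ℂ) - 1 := by
  rw [R0_two, Matrix.trace_kronecker, Matrix.trace_sub, EE_trace, Matrix.trace_one, one_mul]

theorem trace0 (o : κ) : (R0 o 0).trace = (Fintype.card κ : ℂ) - 1 := by
  rw [R0_zero, Matrix.trace_kronecker, Matrix.trace_sub, EE_trace, Matrix.trace_one, mul_one]

theorem trace1 (o : κ) : (R0 o 1).trace = ((Fintype.card κ : ℂ) - 1) ^ 2 := by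
  have hk := card_ne o
  have h2 := trace2 o
  have h0 := trace0 o
  rw [R0_two] at h2
  rw [R0_zero] at h0
  rw [R0_one, Matrix.trace_sub, Matrix.trace_sub, Matrix.trace_sub, h2, h0, Matrix.trace_smul, ZZ_trace,
    Matrix.trace_one, Fintype.card_prod, smul_eq_mul, inv_mul_cancel₀ hk]
  push_cast
  ring

/-! ### the linear map -/

theorem FF_map {K L : Type*} [CommRing K] [CommRing L] (f : K →+* L) (X : Matrix (κ × κ) (κ × κ) K) :
    (FF X).map f = FF (X.map f) := by
  ext a b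
  simp only [FF_apply, Matrix.map_apply, Matrix.add_apply, kroneckerMap_apply, ptr2_apply, ptr1_apply, map_add,
    map_mul, map_sum, Matrix.one_apply, apply_ite f, map_one, map_zero]

theorem FR_map (X : Matrix (κ × κ) (κ × κ) ℚ) : toC (FR X) = FR (toC X) := by
  have m : ∀ A B : Matrix (κ × κ) (κ × κ) ℚ, toC (A * B) = toC A * toC B := fun A B => toC_mul A B
  have ad : ∀ A B : Matrix (κ × κ) (κ × κ) ℚ, toC (A + B) = toC A + toC B := fun A B => by
    ext i j
    simp [toC]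
  have sb : ∀ A B : Matrix (κ × κ) (κ × κ) ℚ, toC (A - B) = toC A - toC B := fun A B => by
    ext i j
    simp [toC]
  have ff : ∀ A : Matrix (κ × κ) (κ × κ) ℚ, toC (FF A) = FF (toC A) := fun A => FF_map _ A
  have tt : toC (tau κ ℚ) = tau κ ℂ := tau_map _
  change toC ((1 / 2 : ℚ) • (FF X + tau κ ℚ * FF X * tau κ ℚ + FF (X * tau κ ℚ) * tau κ ℚ -
    tau κ ℚ * FF (X * tau κ ℚ))) = (1 / 2 : ℂ) • (FF (toC X) + tau κ ℂ * FF (toC X) * tau κ ℂ +
    FF (toC X * tau κ ℂ) * tau κ ℂ - tau κ ℂ * FF (toC X * tau κ ℂ))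
  rw [toC_smul27, sb, ad, ad, m, m, m, m, ff, ff, m, tt]
  norm_num

theorem conj_P (o : κ) {z : κ → ℂ} (p : ℤ) : Ph κ * (GG o z * P0 o p * GG o z) * Phi' κ =
    (UU o z ⊗ₖ UV o z) * R0 o p * (UU o z ⊗ₖ UV o z) := by
  unfold GG P0
  calc Ph κ * (Phi' κ * (UU o z ⊗ₖ UV o z) * Ph κ * (Phi' κ * R0 o p * Ph κ) *
        (Phi' κ * (UU o z ⊗ₖ UV o z) * Ph κ)) * Phi' κ =
        (Ph κ * Phi' κ) * (UU o z ⊗ₖ UV o z) * (Ph κ * Phi' κ) * R0 o p * (Ph κ * Phi' κ) *
          (UU o z ⊗ₖ UV o z) * (Ph κ * Phi' κ) := by simp only [mul_assoc]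
    _ = _ := by simp only [Ph_mul, mul_one, one_mul]

/-- the difference of the extreme projections -/
noncomputable def hb (o : κ) (z : κ → ℂ) : Matrix (κ × κ) (κ × κ) ℂ :=
  GG o z * P0 o 2 * GG o z - GG o z * P0 o 0 * GG o z

theorem hb_eq (o : κ) {z : κ → ℂ} (hq : qq o z (star z) ≠ 0) : Ph κ * hb o z * Phi' κ =
    (UU o z * EE ℂ o * UU o z) ⊗ₖ (1 : Matrix κ κ ℂ) + (1 : Matrix κ κ ℂ) ⊗ₖ (-(UV o z * EE ℂ o * UV o z)) := by
  unfold hb
  rw [mul_sub, sub_mul, conj_P, conj_P, R0_two, R0_zero, ← Matrix.mul_kronecker_mul, ← Matrix.mul_kronecker_mul,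
    ← Matrix.mul_kronecker_mul, ← Matrix.mul_kronecker_mul]
  have e1 : UU o z * (1 - EE ℂ o) * UU o z = 1 - UU o z * EE ℂ o * UU o z := by
    rw [mul_sub, sub_mul, mul_one, UU_sq hq]
  have e2 : UV o z * (1 - EE ℂ o) * UV o z = 1 - UV o z * EE ℂ o * UV o z := by
    rw [mul_sub, sub_mul, mul_one, UV_sq hq]
  rw [e1, e2, kron_sub, sub_kron]
  have e3 : (1 : Matrix κ κ ℂ) ⊗ₖ (-(UV o z * EE ℂ o * UV o z)) = -((1 : Matrix κ κ ℂ) ⊗ₖ (UV o z * EE ℂ o * UV o z)) := by
    ext a b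
    simp [kroneckerMap_apply]
  rw [e3]
  abel

theorem UEU_trace (o : κ) {z : κ → ℂ} (hq : qq o z (star z) ≠ 0) : (UU o z * EE ℂ o * UU o z).trace = 1 := by
  rw [Matrix.trace_mul_comm, ← mul_assoc, UU_sq hq, one_mul, EE_trace]

theorem VEV_trace (o : κ) {z : κ → ℂ} (hq : qq o z (star z) ≠ 0) : (UV o z * EE ℂ o * UV o z).trace = 1 := by
  rw [Matrix.trace_mul_comm, ← mul_assoc, UV_sq hq, one_mul, EE_trace]

theorem unconj (X : Matrix (κ × κ) (κ × κ) ℂ) : Phi' κ * (Ph κ * X * Phi' κ) * Ph κ = X := by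
  calc Phi' κ * (Ph κ * X * Phi' κ) * Ph κ = (Phi' κ * Ph κ) * X * (Phi' κ * Ph κ) := by simp only [mul_assoc]
    _ = X := by rw [Phi'_mul, one_mul, mul_one]

theorem conj_mul (X Y : Matrix (κ × κ) (κ × κ) ℂ) :
    Ph κ * (X * Y) * Phi' κ = (Ph κ * X * Phi' κ) * (Ph κ * Y * Phi' κ) := by
  calc Ph κ * (X * Y) * Phi' κ = Ph κ * X * 1 * Y * Phi' κ := by rw [mul_one]; simp only [mul_assoc]
    _ = _ := by rw [← Phi'_mul]; simp only [mul_assoc]

theorem conj_mul' (X Y : Matrix (κ × κ) (κ × κ) ℂ) :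
    Phi' κ * (X * Y) * Ph κ = (Phi' κ * X * Ph κ) * (Phi' κ * Y * Ph κ) := by
  calc Phi' κ * (X * Y) * Ph κ = Phi' κ * X * 1 * Y * Ph κ := by rw [mul_one]; simp only [mul_assoc]
    _ = _ := by rw [← Ph_mul]; simp only [mul_assoc]

theorem FR_hb (o : κ) {z : κ → ℂ} (hq : qq o z (star z) ≠ 0) : FR (hb o z) = (Fintype.card κ : ℂ) • hb o z := by
  rw [FR_eq, hb_eq o hq, FF_val, UEU_trace o hq, Matrix.trace_neg, VEV_trace o hq, add_neg_cancel, zero_smul,
    add_zero, ← hb_eq o hq, mul_smul_comm, smul_mul_assoc, unconj]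

theorem FR_br (o : κ) {z : κ → ℂ} (hq : qq o z (star z) ≠ 0) (X : Matrix (κ × κ) (κ × κ) ℂ) :
    FR (hb o z * X - X * hb o z) = hb o z * FR X - FR X * hb o z := by
  rw [FR_eq, FR_eq, mul_sub, sub_mul, conj_mul, conj_mul, hb_eq o hq, FF_br, ← hb_eq o hq, mul_sub, sub_mul,
    conj_mul' (Ph κ * hb o z * Phi' κ), conj_mul' _ (Ph κ * hb o z * Phi' κ), unconj (hb o z)]

/-! ### the final statement -/

open Module in
/-- The Hodge numbers `s, s², s`. -/
theorem sharp (s : ℕ) (hs : 3 ≤ s) : ∃ (n : Type) (_ : Fintype n) (_ : DecidableEq n) (Q : Matrix n n ℚ)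
    (P : ℤ → Matrix n n ℂ), IsHW 2 Q {0, 1, 2} P ∧
      (∀ A : Matrix n n ℚ, (∀ p, toC A * P p = P p * toC A) → ∃ c : ℚ, A = c • (1 : Matrix n n ℚ)) ∧
      (P 2).rank = s ∧ (P 1).rank = s ^ 2 ∧ (P 0).rank = s ∧
      ∃ g : GL n ℂ, IsGQ 2 Q g ∧ g ∉ MT {0, 1, 2} P := by
  classical
  obtain ⟨o, ho⟩ : ∃ o : Fin (s + 1), o = 0 := ⟨0, rfl⟩
  have hj0 : (Fin.last s : Fin (s + 1)) ≠ o := by
    rw [ho]
    intro h
    have := congrArg Fin.val h
    simp at this
    omega
  have hcard : (Fintype.card (Fin (s + 1)) : ℂ) = (s : ℂ) + 1 := by simp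
  obtain ⟨B, C, hBC, hCB⟩ := SH94.exists_fact (ee_idem o)
  have b1 : rcC B * rcC C = 1 := by
    rw [← rcC_mul, hBC]
    unfold rcC
    rw [Matrix.map_one _ (map_zero _) (map_one _)]
  have b2 : rcC C * rcC B = toC (ee o) := by
    rw [← rcC_mul, hCB]
    rfl
  have b3 : B * ee o = B := by
    have h1 : B * (C * B) = B * ee o := congrArg (B * ·) hCB
    rw [← h1, ← Matrix.mul_assoc, hBC, Matrix.one_mul]
  obtain ⟨z, hz⟩ := exists_generic27 (T := TT o)
    (fun t p => rcC B * (GG o t.1 * P0 o p * GG o t.1) * rcC C)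
    (fun p => ((continuous_const.matrix_mul (((cont_GG o).matrix_mul continuous_const).matrix_mul
      (cont_GG o))).matrix_mul continuous_const)) (by
    intro U hU hne A hA
    have hW : IsOpen (Subtype.val '' U : Set (Fin (s + 1) → ℂ)) := (isOpen_TT o).isOpenMap_subtype_val U hU
    obtain ⟨c, hc⟩ := end_big o hj0 (A := C * A * B) hW (hne.image _) (by
      rintro _ ⟨t, _, rfl⟩
      exact t.2) (by
      rw [Matrix.mul_assoc, b3]) (by
      rintro _ ⟨t, ht, rfl⟩
      have H := fam_big (o := o) t.2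
      have h1 := hA t ht 2
      have e1 : toC (C * A * B) = rcC C * toC A * rcC B := by
        change rcC (C * A * B) = _
        rw [rcC_mul, rcC_mul]
        rfl
      have h2 : GG o t.1 * P0 o 2 * GG o t.1 =
          rcC C * (rcC B * (GG o t.1 * P0 o 2 * GG o t.1) * rcC C) * rcC B := by
        calc GG o t.1 * P0 o 2 * GG o t.1 = toC (ee o) * (GG o t.1 * P0 o 2 * GG o t.1) * toC (ee o) := by
              rw [H.e_mul 2, H.mul_e 2]
          _ = _ := by rw [← b2]; simp only [Matrix.mul_assoc]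
      obtain ⟨Ps, hPs⟩ : ∃ Ps, rcC B * (GG o t.1 * P0 o 2 * GG o t.1) * rcC C = Ps := ⟨_, rfl⟩
      rw [hPs] at h1 h2
      rw [h2, e1]
      calc rcC C * toC A * rcC B * (rcC C * Ps * rcC B) = rcC C * (toC A * (rcC B * rcC C) * Ps) * rcC B := by
            simp only [Matrix.mul_assoc]
        _ = rcC C * (Ps * (rcC B * rcC C) * toC A) * rcC B := by
            rw [b1, Matrix.mul_one, Matrix.mul_one, h1]
        _ = _ := by simp only [Matrix.mul_assoc])
    refine ⟨c, ?_⟩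
    calc A = (B * C) * A * (B * C) := by rw [hBC, Matrix.one_mul, Matrix.mul_one]
      _ = B * (C * A * B) * C := by simp only [Matrix.mul_assoc]
      _ = c • (B * ee o * C) := by rw [hc, Matrix.mul_smul, Matrix.smul_mul]
      _ = c • 1 := by rw [b3, hBC])
  have hq := z.2
  have HB := fam_big (o := o) hq
  have H := HB.small hBC hCB
  have idm : ∀ p, (rcC B * (GG o z.1 * P0 o p * GG o z.1) * rcC C) *
      (rcC B * (GG o z.1 * P0 o p * GG o z.1) * rcC C) = rcC B * (GG o z.1 * P0 o p * GG o z.1) * rcC C := by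
    intro p
    have := H.mul p p
    rwa [if_pos rfl] at this
  have tr : ∀ p, (rcC B * (GG o z.1 * P0 o p * GG o z.1) * rcC C).trace = (R0 o p).trace := by
    intro p
    rw [Matrix.trace_mul_comm, ← Matrix.mul_assoc, b2, HB.e_mul p, Matrix.trace_mul_comm, ← Matrix.mul_assoc,
      GG_sq hq, Matrix.one_mul]
    unfold P0
    rw [Matrix.trace_mul_comm, ← Matrix.mul_assoc, Ph_mul, Matrix.one_mul]
  have r2 : (rcC B * (GG o z.1 * P0 o 2 * GG o z.1) * rcC C).rank = s := by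
    have h1 := trace_eq_rank (idm 2)
    rw [tr, trace2, hcard, add_sub_cancel_right] at h1
    exact_mod_cast h1.symm
  have r0 : (rcC B * (GG o z.1 * P0 o 0 * GG o z.1) * rcC C).rank = s := by
    have h1 := trace_eq_rank (idm 0)
    rw [tr, trace0, hcard, add_sub_cancel_right] at h1
    exact_mod_cast h1.symm
  have r1 : (rcC B * (GG o z.1 * P0 o 1 * GG o z.1) * rcC C).rank = s ^ 2 := by
    have h1 := trace_eq_rank (idm 1)
    rw [tr, trace1, hcard, add_sub_cancel_right] at h1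
    exact_mod_cast h1.symm
  refine ⟨Fin (ee o).rank, inferInstance, inferInstance, Cᵀ * QQ ℚ o * C, _, H, hz, r2, r1, r0, ?_⟩
  -- the linear map
  let F : Matrix (Fin (ee o).rank) (Fin (ee o).rank) ℂ →ₗ[ℂ] Matrix (Fin (ee o).rank) (Fin (ee o).rank) ℂ :=
    { toFun := fun X => rcC B * FR (rcC C * X * rcC B) * rcC C
      map_add' := fun X Y => by
        rw [Matrix.mul_add, Matrix.add_mul, map_add, Matrix.mul_add, Matrix.add_mul]
      map_smul' := fun c X => by
        rw [Matrix.mul_smul, Matrix.smul_mul, map_smul, Matrix.mul_smul, Matrix.smul_mul, RingHom.id_apply] }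
  have hFdef : ∀ X, F X = rcC B * FR (rcC C * X * rcC B) * rcC C := fun X => rfl
  let L2 : (Matrix (Fin (s + 1)) (Fin (s + 1)) ℂ × Matrix (Fin (s + 1)) (Fin (s + 1)) ℂ) →ₗ[ℂ]
      Matrix (Fin (ee o).rank) (Fin (ee o).rank) ℂ :=
    { toFun := fun p => rcC B * (Phi' (Fin (s + 1)) * (p.1 ⊗ₖ 1 + 1 ⊗ₖ p.2) * Ph (Fin (s + 1))) * rcC C
      map_add' := fun p q => by
        rw [Prod.fst_add, Prod.snd_add, Matrix.add_kronecker, Matrix.kronecker_add]
        have : p.1 ⊗ₖ (1 : Matrix (Fin (s + 1)) (Fin (s + 1)) ℂ) + q.1 ⊗ₖ 1 + (1 ⊗ₖ p.2 + 1 ⊗ₖ q.2) =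
          (p.1 ⊗ₖ 1 + 1 ⊗ₖ p.2) + (q.1 ⊗ₖ 1 + 1 ⊗ₖ q.2) := by abel
        rw [this, mul_add, add_mul, Matrix.mul_add, Matrix.add_mul]
      map_smul' := fun c p => by
        rw [Prod.smul_fst, Prod.smul_snd, Matrix.smul_kronecker, Matrix.kronecker_smul, ← smul_add, mul_smul_comm,
          smul_mul_assoc, Matrix.mul_smul, Matrix.smul_mul, RingHom.id_apply] }
  have hL2 : ∀ p, L2 p = rcC B * (Phi' (Fin (s + 1)) * (p.1 ⊗ₖ 1 + 1 ⊗ₖ p.2) * Ph (Fin (s + 1))) * rcC C :=
    fun p => rfl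
  have hle : LinearMap.range F ≤ LinearMap.range L2 := by
    rintro _ ⟨X, rfl⟩
    refine ⟨(ptr2 (Ph (Fin (s + 1)) * (rcC C * X * rcC B) * Phi' (Fin (s + 1))),
      ptr1 (Ph (Fin (s + 1)) * (rcC C * X * rcC B) * Phi' (Fin (s + 1)))), ?_⟩
    rw [hL2, hFdef, FR_eq]
    rfl
  have hfr : finrank ℂ (LinearMap.range F) < 2 * s * s ^ 2 := by
    have h1 := Submodule.finrank_mono hle
    have h2 := LinearMap.finrank_range_le L2
    have h3 : finrank ℂ (Matrix (Fin (s + 1)) (Fin (s + 1)) ℂ × Matrix (Fin (s + 1)) (Fin (s + 1)) ℂ) =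
        2 * (s + 1) ^ 2 := by
      rw [finrank_prod, finrank_matrix, Fintype.card_fin, finrank_self]
      ring
    rw [h3] at h2
    refine lt_of_le_of_lt (h1.trans h2) ?_
    obtain ⟨k, rfl⟩ := Nat.exists_eq_add_of_le hs
    ring_nf
    nlinarith [Nat.zero_le k, Nat.zero_le (k ^ 2), Nat.zero_le (k ^ 3)]
  have hh : rcC B * (GG o z.1 * P0 o 2 * GG o z.1) * rcC C - rcC B * (GG o z.1 * P0 o 0 * GG o z.1) * rcC C =
      rcC B * hb o z.1 * rcC C := by
    unfold hb
    rw [Matrix.mul_sub, Matrix.sub_mul]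
  have ehb : toC (ee o) * hb o z.1 = hb o z.1 := by
    unfold hb
    rw [mul_sub, HB.e_mul 2, HB.e_mul 0]
  have hbe : hb o z.1 * toC (ee o) = hb o z.1 := by
    unfold hb
    rw [sub_mul, HB.mul_e 2, HB.mul_e 0]
  obtain ⟨g, hg1, hg2, hg3⟩ := SH94.exists_not_mem H F (fun A => by
    refine ⟨B * FR (C * A * B) * C, ?_⟩
    rw [hFdef]
    change _ = rcC (B * FR (C * A * B) * C)
    rw [rcC_mul, rcC_mul]
    have e1 : rcC C * toC A * rcC B = toC (C * A * B) := by
      change _ = rcC (C * A * B)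
      rw [rcC_mul, rcC_mul]
      rfl
    rw [e1, ← FR_map]
    rfl) (fun X => by
    simp only [hFdef]
    rw [hh]
    have e1 : rcC C * (rcC B * hb o z.1 * rcC C * X - X * (rcC B * hb o z.1 * rcC C)) * rcC B =
        hb o z.1 * (rcC C * X * rcC B) - (rcC C * X * rcC B) * hb o z.1 := by
      rw [Matrix.mul_sub, Matrix.sub_mul]
      congr 1
      · calc rcC C * (rcC B * hb o z.1 * rcC C * X) * rcC B = ((rcC C * rcC B) * hb o z.1) * (rcC C * X * rcC B) := by
              simp only [Matrix.mul_assoc]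
          _ = _ := by rw [b2, ehb]
      · calc rcC C * (X * (rcC B * hb o z.1 * rcC C)) * rcC B =
              (rcC C * X * rcC B) * (hb o z.1 * (rcC C * rcC B)) := by simp only [Matrix.mul_assoc]
          _ = _ := by rw [b2, hbe]
    rw [e1, FR_br o hq, Matrix.mul_sub, Matrix.sub_mul]
    congr 1
    · calc rcC B * (hb o z.1 * FR (rcC C * X * rcC B)) * rcC C =
            rcC B * (hb o z.1 * toC (ee o)) * FR (rcC C * X * rcC B) * rcC C := by
              rw [hbe]; simp only [Matrix.mul_assoc]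
        _ = _ := by rw [← b2]; simp only [Matrix.mul_assoc]
    · calc rcC B * (FR (rcC C * X * rcC B) * hb o z.1) * rcC C =
            rcC B * (FR (rcC C * X * rcC B) * (toC (ee o) * hb o z.1)) * rcC C := by
              rw [ehb]
        _ = _ := by rw [← b2]; simp only [Matrix.mul_assoc]) (card_ne o) (by
    simp only [hFdef]
    rw [hh]
    have e1 : rcC C * (rcC B * hb o z.1 * rcC C) * rcC B = hb o z.1 := by
      calc rcC C * (rcC B * hb o z.1 * rcC C) * rcC B = (rcC C * rcC B) * hb o z.1 * (rcC C * rcC B) := by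
            simp only [Matrix.mul_assoc]
        _ = _ := by rw [b2, ehb, hbe]
    rw [e1, FR_hb o hq, Matrix.mul_smul, Matrix.smul_mul]) (by
    rw [r2, r1]
    exact hfr)
  refine ⟨g, ⟨1, fun h => absurd h (by norm_num), ?_, fun _ => ?_⟩, hg3⟩
  · rw [one_pow, one_smul]
    exact hg1
  · rw [one_pow]
    exact hg2

end MH.Her27

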