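import Pool.Agent.Helper27.PGN.Gen

/-!
Project PGN (MP_b8862a_ag): polarised Hodge structures on the image of a rational idempotent, transport to coordinates.
-/

set_option linter.unusedSectionVars false

open Matrix

namespace MH

variable {n : Type*} [Fintype n] [DecidableEq n]

/-- A polarised Hodge structure of weight 2 on the image of the rational idempotent `e`, in big coordinates. -/
structure BigHW27 (Q e : Matrix n n ℚ) (P : ℤ → Matrix n n ℂ) : Prop where
  mul : ∀ p q, P p * P q = if p = q then P p else 0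
  supp : ∀ p, p ∉ ({0, 1, 2} : Finset ℤ) → P p = 0
  sum : ∑ p ∈ ({0, 1, 2} : Finset ℤ), P p = toC e
  conj : ∀ p, (P p).map (starRingEnd ℂ) = P (2 - p)
  symm : Qᵀ = Q
  orth : ∀ p q, p + q ≠ 2 → (P p)ᵀ * toC Q * P q = 0
  pos : ∀ p (v : n → ℂ), P p *ᵥ v = v → v ≠ 0 → 0 < (Complex.I ^ (2 * p - 2) * (v ⬝ᵥ (toC Q *ᵥ star v))).re

namespace BigHW27

variable {Q e : Matrix n n ℚ} {P : ℤ → Matrix n n ℂ} (H : BigHW27 Q e P)
include H

theorem mul_e (p : ℤ) : P p * toC e = P p := by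
  rw [← H.sum, Finset.mul_sum]
  by_cases hp : p ∈ ({0, 1, 2} : Finset ℤ)
  · rw [Finset.sum_eq_single p]
    · rw [H.mul, if_pos rfl]
    · intro q _ hq
      rw [H.mul, if_neg (Ne.symm hq)]
    · intro h
      exact absurd hp h
  · rw [H.supp p hp]
    simp

theorem e_mul (p : ℤ) : toC e * P p = P p := by
  rw [← H.sum, Finset.sum_mul]
  by_cases hp : p ∈ ({0, 1, 2} : Finset ℤ)
  · rw [Finset.sum_eq_single p]
    · rw [H.mul, if_pos rfl]
    · intro q _ hq
      rw [H.mul, if_neg hq]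
    · intro h
      exact absurd hp h
  · rw [H.supp p hp]
    simp

/-- transport with a real isometry that commutes with `e` -/
theorem conj27 {g gi : Matrix n n ℂ} (h1 : g * gi = 1) (h2 : gi * g = 1)
    (hg : g.map (starRingEnd ℂ) = g) (hQ : gᵀ * toC Q * g = toC Q) (he : g * toC e * gi = toC e) :
    BigHW27 Q e (fun p => g * P p * gi) := by
  have hgi : gi.map (starRingEnd ℂ) = gi := by
    have e1 : g * gi.map (starRingEnd ℂ) = 1 := by
      have := congrArg (fun X : Matrix n n ℂ => X.map (starRingEnd ℂ)) h1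
      simp only [Matrix.map_mul, hg] at this
      rw [this, Matrix.map_one _ (map_zero _) (map_one _)]
    calc gi.map (starRingEnd ℂ) = gi * g * gi.map (starRingEnd ℂ) := by rw [h2, one_mul]
      _ = gi := by rw [mul_assoc, e1, mul_one]
  refine ⟨fun p q => ?_, fun p hp => ?_, ?_, fun p => ?_, H.symm, fun p q hpq => ?_, fun p v hv hv0 => ?_⟩
  · have e1 : g * P p * gi * (g * P q * gi) = g * (P p * P q) * gi := by
      calc g * P p * gi * (g * P q * gi) = g * P p * (gi * g) * P q * gi := by simp only [mul_assoc]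
        _ = g * (P p * P q) * gi := by rw [h2, mul_one]; simp only [mul_assoc]
    rw [e1, H.mul]
    split_ifs <;> simp
  · rw [H.supp p hp]
    simp
  · rw [← Finset.sum_mul, ← Finset.mul_sum, H.sum, he]
  · rw [Matrix.map_mul, Matrix.map_mul, hg, hgi, H.conj]
  · have e1 : (g * P p * gi)ᵀ * toC Q * (g * P q * gi) = giᵀ * ((P p)ᵀ * (gᵀ * toC Q * g) * P q) * gi := by
      simp only [Matrix.transpose_mul, mul_assoc]
    rw [e1, hQ, H.orth p q hpq]
    simp
  · have e0 : P p *ᵥ (gi *ᵥ v) = gi *ᵥ v := by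
      conv_rhs => rw [← hv]
      rw [Matrix.mulVec_mulVec, Matrix.mulVec_mulVec]
      congr 1
      rw [← mul_assoc, ← mul_assoc, h2, one_mul]
    have e1 : v = g *ᵥ (gi *ᵥ v) := by rw [Matrix.mulVec_mulVec, h1, Matrix.one_mulVec]
    have e2 : gi *ᵥ v ≠ 0 := by
      intro h
      rw [h, Matrix.mulVec_zero] at e1
      exact hv0 e1
    have e3 := H.pos p _ e0 e2
    have e4 : v ⬝ᵥ (toC Q *ᵥ star v) = (gi *ᵥ v) ⬝ᵥ (toC Q *ᵥ star (gi *ᵥ v)) := by
      obtain ⟨u, hu⟩ : ∃ u, gi *ᵥ v = u := ⟨_, rfl⟩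
      rw [hu] at e1 ⊢
      rw [e1, star_mulVec_real hg, ← Matrix.vecMul_transpose g u, ← Matrix.dotProduct_mulVec, Matrix.mulVec_mulVec,
        Matrix.mulVec_mulVec]
      simp only [mul_assoc]
      rw [← mul_assoc gᵀ (toC Q) g, hQ]
    rw [e4]
    exact e3

end BigHW27

section rect

variable {r : Type*} [Fintype r] [DecidableEq r]

/-- the complex matrix of a rectangular rational matrix -/
noncomputable def rcC {m n : Type*} (A : Matrix m n ℚ) : Matrix m n ℂ := A.map (algebraMap ℚ ℂ)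

theorem rcC_mul {l m o : Type*} [Fintype m] (A : Matrix l m ℚ) (B : Matrix m o ℚ) :
    rcC (A * B) = rcC A * rcC B := by
  unfold rcC
  rw [Matrix.map_mul]

theorem rcC_conj {m n : Type*} (A : Matrix m n ℚ) : (rcC A).map (starRingEnd ℂ) = rcC A := by
  ext i j
  simp [rcC]

theorem star_rcC_mulVec {m n : Type*} [Fintype n] (A : Matrix m n ℚ) (u : n → ℂ) :
    star (rcC A *ᵥ u) = rcC A *ᵥ star u := by
  funext i
  simp only [Pi.star_apply, Matrix.mulVec, dotProduct, star_sum, star_mul', rcC, Matrix.map_apply]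
  refine Finset.sum_congr rfl fun j _ => ?_
  congr 1
  simp

/-- the Hodge structure in the coordinates of the image of `e` -/
theorem BigHW27.small {Q e : Matrix n n ℚ} {P : ℤ → Matrix n n ℂ} (H : BigHW27 Q e P)
    {B : Matrix r n ℚ} {C : Matrix n r ℚ} (hBC : B * C = 1) (hCB : C * B = e) :
    IsHW 2 (Cᵀ * Q * C) {0, 1, 2} (fun p => rcC B * P p * rcC C) := by
  have b1 : rcC B * rcC C = 1 := by
    rw [← rcC_mul, hBC]
    unfold rcC
    rw [Matrix.map_one _ (map_zero _) (map_one _)]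
  have b2 : rcC C * rcC B = toC e := by
    rw [← rcC_mul, hCB]
    rfl
  have hQ : toC (Cᵀ * Q * C) = (rcC C)ᵀ * toC Q * rcC C := by
    change rcC (Cᵀ * Q * C) = _
    rw [rcC_mul, rcC_mul]
    rfl
  refine ⟨fun p q => ?_, fun p hp => ?_, ?_, fun p => ?_, ?_, fun p q hpq => ?_, fun p v hv hv0 => ?_⟩
  · have e1 : rcC B * P p * rcC C * (rcC B * P q * rcC C) = rcC B * (P p * P q) * rcC C := by
      calc rcC B * P p * rcC C * (rcC B * P q * rcC C) = rcC B * (P p * (rcC C * rcC B)) * P q * rcC C := by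
            simp only [Matrix.mul_assoc]
        _ = rcC B * (P p * P q) * rcC C := by rw [b2, H.mul_e]; simp only [Matrix.mul_assoc]
    rw [e1, H.mul]
    split_ifs <;> simp
  · rw [H.supp p hp]
    simp
  · rw [← Matrix.sum_mul, ← Matrix.mul_sum, H.sum, ← b2]
    rw [← Matrix.mul_assoc, b1, Matrix.one_mul, b1]
  · rw [Matrix.map_mul, Matrix.map_mul, rcC_conj, rcC_conj, H.conj]
  · rw [Matrix.transpose_mul, Matrix.transpose_mul, Matrix.transpose_transpose, H.symm, Matrix.mul_assoc]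
    norm_num
  · have e1 : (rcC B * P p * rcC C)ᵀ * toC (Cᵀ * Q * C) * (rcC B * P q * rcC C) =
        (rcC C)ᵀ * (((rcC C * rcC B) * P p)ᵀ * toC Q * ((rcC C * rcC B) * P q)) * rcC C := by
      rw [hQ]
      simp only [Matrix.transpose_mul, Matrix.mul_assoc]
    rw [e1, b2, H.e_mul, H.e_mul, H.orth p q hpq]
    simp
  · have e0 : P p *ᵥ (rcC C *ᵥ v) = rcC C *ᵥ v := by
      conv_rhs => rw [← hv]
      rw [Matrix.mulVec_mulVec, Matrix.mulVec_mulVec]
      congr 1
      rw [← Matrix.mul_assoc, ← Matrix.mul_assoc, b2, H.e_mul]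
    have e2 : rcC C *ᵥ v ≠ 0 := by
      intro h
      apply hv0
      have : v = rcC B *ᵥ (rcC C *ᵥ v) := by rw [Matrix.mulVec_mulVec, b1, Matrix.one_mulVec]
      rw [this, h, Matrix.mulVec_zero]
    have e3 := H.pos p _ e0 e2
    have e4 : v ⬝ᵥ (toC (Cᵀ * Q * C) *ᵥ star v) = (rcC C *ᵥ v) ⬝ᵥ (toC Q *ᵥ star (rcC C *ᵥ v)) := by
      rw [hQ, star_rcC_mulVec, ← Matrix.vecMul_transpose (rcC C) v, ← Matrix.dotProduct_mulVec, Matrix.mulVec_mulVec,
        Matrix.mulVec_mulVec]
    rw [e4]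
    exact e3

end rect

end MH
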