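import Mathlib

/-!
Project PGN (MP_b8862a_ag): Hermitian forms. The swap matrix, the change of basis between real matrices and Hermitian
matrices, the partial traces.
-/

set_option linter.unusedSectionVars false

open Matrix Kronecker

namespace MH.Her27

variable {κ : Type*} [Fintype κ] [DecidableEq κ]

section ring
variable {K : Type*} [CommRing K]

/-- the swap matrix -/
def tau (κ K : Type*) [DecidableEq κ] [CommRing K] : Matrix (κ × κ) (κ × κ) K :=
  Matrix.of fun a b => if a.1 = b.2 ∧ a.2 = b.1 then 1 else 0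

theorem tau_mul_apply (X : Matrix (κ × κ) (κ × κ) K) (a b : κ × κ) : (tau κ K * X) a b = X (a.2, a.1) b := by
  rw [Matrix.mul_apply, Finset.sum_eq_single (a.2, a.1)]
  · simp [tau]
  · intro c _ hc
    have : ¬ (a.1 = c.2 ∧ a.2 = c.1) := by
      rintro ⟨h1, h2⟩
      exact hc (Prod.ext h2.symm h1.symm)
    simp [tau, this]
  · intro h
    exact absurd (Finset.mem_univ _) h

theorem mul_tau_apply (X : Matrix (κ × κ) (κ × κ) K) (a b : κ × κ) : (X * tau κ K) a b = X a (b.2, b.1) := by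
  rw [Matrix.mul_apply, Finset.sum_eq_single (b.2, b.1)]
  · simp [tau]
  · intro c _ hc
    have : ¬ (c.1 = b.2 ∧ c.2 = b.1) := by
      rintro ⟨h1, h2⟩
      exact hc (Prod.ext h1 h2)
    simp [tau, this]
  · intro h
    exact absurd (Finset.mem_univ _) h

theorem tau_mul_tau : tau κ K * tau κ K = 1 := by
  ext a b
  rw [tau_mul_apply]
  simp only [tau, Matrix.of_apply, Matrix.one_apply, Prod.ext_iff]
  congr 1
  simp only [eq_iff_iff]
  tauto

theorem tau_kron_tau (A B : Matrix κ κ K) : tau κ K * (A ⊗ₖ B) * tau κ K = B ⊗ₖ A := by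
  ext a b
  rw [mul_tau_apply, tau_mul_apply]
  simp only [kroneckerMap_apply]
  rw [mul_comm]

theorem tau_kron (A B : Matrix κ κ K) : tau κ K * (A ⊗ₖ B) = (B ⊗ₖ A) * tau κ K := by
  rw [← tau_kron_tau A B, mul_assoc, tau_mul_tau, mul_one]

theorem tau_transpose : (tau κ K)ᵀ = tau κ K := by
  ext a b
  simp only [tau, Matrix.transpose_apply, Matrix.of_apply]
  congr 1
  simp only [eq_iff_iff]
  constructor
  · rintro ⟨h1, h2⟩
    exact ⟨h2.symm, h1.symm⟩
  · rintro ⟨h1, h2⟩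
    exact ⟨h2.symm, h1.symm⟩

theorem tau_map {L : Type*} [CommRing L] (f : K →+* L) : (tau κ K).map f = tau κ L := by
  ext a b
  simp only [tau, Matrix.map_apply, Matrix.of_apply]
  split_ifs <;> simp

/-- the partial trace over the second factor -/
def ptr2 : Matrix (κ × κ) (κ × κ) K →ₗ[K] Matrix κ κ K where
  toFun X := Matrix.of fun i j => ∑ k, X (i, k) (j, k)
  map_add' X Y := by
    ext i j
    simp [Finset.sum_add_distrib]
  map_smul' c X := by
    ext i j
    simp [Finset.mul_sum]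

/-- the partial trace over the first factor -/
def ptr1 : Matrix (κ × κ) (κ × κ) K →ₗ[K] Matrix κ κ K where
  toFun X := Matrix.of fun i j => ∑ k, X (k, i) (k, j)
  map_add' X Y := by
    ext i j
    simp [Finset.sum_add_distrib]
  map_smul' c X := by
    ext i j
    simp [Finset.mul_sum]

theorem ptr2_apply (X : Matrix (κ × κ) (κ × κ) K) (i j : κ) : ptr2 X i j = ∑ k, X (i, k) (j, k) := rfl

theorem ptr1_apply (X : Matrix (κ × κ) (κ × κ) K) (i j : κ) : ptr1 X i j = ∑ k, X (k, i) (k, j) := rfl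

theorem ptr2_kron (A B : Matrix κ κ K) : ptr2 (A ⊗ₖ B) = B.trace • A := by
  ext i j
  rw [ptr2_apply]
  simp only [kroneckerMap_apply, Matrix.smul_apply, smul_eq_mul, Matrix.trace, Matrix.diag]
  rw [← Finset.mul_sum, mul_comm]

theorem ptr1_kron (A B : Matrix κ κ K) : ptr1 (A ⊗ₖ B) = A.trace • B := by
  ext i j
  rw [ptr1_apply]
  simp only [kroneckerMap_apply, Matrix.smul_apply, smul_eq_mul, Matrix.trace, Matrix.diag]
  rw [← Finset.sum_mul]

/-- `x ⊗ 1 + 1 ⊗ y` for the partial traces `x`, `y` -/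
def FF : Matrix (κ × κ) (κ × κ) K →ₗ[K] Matrix (κ × κ) (κ × κ) K where
  toFun X := (ptr2 X) ⊗ₖ (1 : Matrix κ κ K) + (1 : Matrix κ κ K) ⊗ₖ (ptr1 X)
  map_add' X Y := by
    rw [map_add, map_add, Matrix.add_kronecker, Matrix.kronecker_add]
    abel
  map_smul' c X := by
    rw [map_smul, map_smul, Matrix.smul_kronecker, Matrix.kronecker_smul, RingHom.id_apply, smul_add]

theorem FF_apply (X : Matrix (κ × κ) (κ × κ) K) :
    FF X = (ptr2 X) ⊗ₖ (1 : Matrix κ κ K) + (1 : Matrix κ κ K) ⊗ₖ (ptr1 X) := rfl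

theorem ptr2_left (Z : Matrix κ κ K) (X : Matrix (κ × κ) (κ × κ) K) :
    ptr2 ((Z ⊗ₖ (1 : Matrix κ κ K)) * X) = Z * ptr2 X := by
  ext i j
  rw [ptr2_apply, Matrix.mul_apply]
  simp only [Matrix.mul_apply, kroneckerMap_apply, Fintype.sum_prod_type, ptr2_apply, Matrix.one_apply]
  simp only [mul_ite, mul_one, mul_zero, ite_mul, zero_mul, Finset.sum_ite_eq, Finset.mem_univ, if_true]
  rw [Finset.sum_comm]
  simp only [Finset.mul_sum]

theorem ptr2_right (Z : Matrix κ κ K) (X : Matrix (κ × κ) (κ × κ) K) :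
    ptr2 (X * (Z ⊗ₖ (1 : Matrix κ κ K))) = ptr2 X * Z := by
  ext i j
  rw [ptr2_apply, Matrix.mul_apply]
  simp only [Matrix.mul_apply, kroneckerMap_apply, Fintype.sum_prod_type, ptr2_apply, Matrix.one_apply]
  simp only [mul_ite, mul_one, mul_zero, Finset.sum_ite_eq', Finset.mem_univ, if_true]
  rw [Finset.sum_comm]
  simp only [Finset.sum_mul]

theorem ptr2_comm (Z : Matrix κ κ K) (X : Matrix (κ × κ) (κ × κ) K) :
    ptr2 (((1 : Matrix κ κ K) ⊗ₖ Z) * X) = ptr2 (X * ((1 : Matrix κ κ K) ⊗ₖ Z)) := by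
  ext i j
  rw [ptr2_apply, ptr2_apply]
  simp only [Matrix.mul_apply, kroneckerMap_apply, Fintype.sum_prod_type, Matrix.one_apply]
  simp only [ite_mul, one_mul, zero_mul, mul_ite, mul_zero]
  have e1 : ∀ x : κ, (∑ x1 : κ, ∑ x2 : κ, if i = x1 then Z x x2 * X (x1, x2) (j, x) else 0) =
      ∑ x2 : κ, Z x x2 * X (i, x2) (j, x) := by
    intro x
    rw [Finset.sum_eq_single i]
    · simp
    · intro b _ hb
      simp [Ne.symm hb]
    · simp
  have e2 : ∀ x : κ, (∑ x1 : κ, ∑ x2 : κ, if x1 = j then X (i, x) (x1, x2) * Z x2 x else 0) =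
      ∑ x2 : κ, X (i, x) (j, x2) * Z x2 x := by
    intro x
    rw [Finset.sum_eq_single j]
    · simp
    · intro b _ hb
      simp [hb]
    · simp
  simp only [e1, e2]
  rw [Finset.sum_comm]
  refine Finset.sum_congr rfl fun x _ => Finset.sum_congr rfl fun y _ => ?_
  rw [mul_comm]

theorem ptr1_eq (X : Matrix (κ × κ) (κ × κ) K) : ptr1 X = ptr2 (tau κ K * X * tau κ K) := by
  ext i j
  rw [ptr1_apply, ptr2_apply]
  refine Finset.sum_congr rfl fun k _ => ?_
  rw [mul_tau_apply, tau_mul_apply]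

theorem ptr2_br (Z Z' : Matrix κ κ K) (X : Matrix (κ × κ) (κ × κ) K) :
    ptr2 ((Z ⊗ₖ (1 : Matrix κ κ K) + (1 : Matrix κ κ K) ⊗ₖ Z') * X -
      X * (Z ⊗ₖ (1 : Matrix κ κ K) + (1 : Matrix κ κ K) ⊗ₖ Z')) = Z * ptr2 X - ptr2 X * Z := by
  rw [add_mul, mul_add, map_sub, map_add, map_add, ptr2_left, ptr2_right, ptr2_comm]
  abel

theorem tau_cancel (X : Matrix (κ × κ) (κ × κ) K) : tau κ K * (tau κ K * X * tau κ K) * tau κ K = X := by
  simp only [mul_assoc]
  rw [tau_mul_tau, mul_one, ← mul_assoc, tau_mul_tau, one_mul]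

theorem tau_conj_mul (X Y : Matrix (κ × κ) (κ × κ) K) :
    tau κ K * (X * Y) * tau κ K = (tau κ K * X * tau κ K) * (tau κ K * Y * tau κ K) := by
  calc tau κ K * (X * Y) * tau κ K = tau κ K * X * 1 * Y * tau κ K := by rw [mul_one]; simp only [mul_assoc]
    _ = _ := by rw [← tau_mul_tau]; simp only [mul_assoc]

theorem ptr1_br (Z Z' : Matrix κ κ K) (X : Matrix (κ × κ) (κ × κ) K) :
    ptr1 ((Z ⊗ₖ (1 : Matrix κ κ K) + (1 : Matrix κ κ K) ⊗ₖ Z') * X -
      X * (Z ⊗ₖ (1 : Matrix κ κ K) + (1 : Matrix κ κ K) ⊗ₖ Z')) = Z' * ptr1 X - ptr1 X * Z' := by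
  rw [ptr1_eq, ptr1_eq X, mul_sub, sub_mul, tau_conj_mul, tau_conj_mul, mul_add, add_mul, tau_kron_tau, tau_kron_tau,
    add_comm (1 ⊗ₖ Z), ptr2_br]

theorem sub_kron (A B C : Matrix κ κ K) : (A - B) ⊗ₖ C = A ⊗ₖ C - B ⊗ₖ C := by
  ext i j
  simp [kroneckerMap_apply, sub_mul]

theorem kron_sub (A B C : Matrix κ κ K) : A ⊗ₖ (B - C) = A ⊗ₖ B - A ⊗ₖ C := by
  ext i j
  simp [kroneckerMap_apply, mul_sub]

/-- the map commutes with the derivation by `Z ⊗ 1 + 1 ⊗ Z'` -/
theorem FF_br (Z Z' : Matrix κ κ K) (X : Matrix (κ × κ) (κ × κ) K) :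
    FF ((Z ⊗ₖ (1 : Matrix κ κ K) + (1 : Matrix κ κ K) ⊗ₖ Z') * X -
      X * (Z ⊗ₖ (1 : Matrix κ κ K) + (1 : Matrix κ κ K) ⊗ₖ Z')) =
    (Z ⊗ₖ (1 : Matrix κ κ K) + (1 : Matrix κ κ K) ⊗ₖ Z') * FF X -
      FF X * (Z ⊗ₖ (1 : Matrix κ κ K) + (1 : Matrix κ κ K) ⊗ₖ Z') := by
  rw [FF_apply, FF_apply, ptr2_br, ptr1_br]
  simp only [add_mul, mul_add, ← Matrix.mul_kronecker_mul, one_mul, mul_one, sub_kron, kron_sub]
  abel

/-- the value at `Z ⊗ 1 + 1 ⊗ Z'` -/
theorem FF_val (Z Z' : Matrix κ κ K) :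
    FF (Z ⊗ₖ (1 : Matrix κ κ K) + (1 : Matrix κ κ K) ⊗ₖ Z') =
    (Fintype.card κ : K) • (Z ⊗ₖ (1 : Matrix κ κ K) + (1 : Matrix κ κ K) ⊗ₖ Z') +
      (Z.trace + Z'.trace) • (1 : Matrix (κ × κ) (κ × κ) K) := by
  rw [FF_apply, map_add, map_add, ptr2_kron, ptr2_kron, ptr1_kron, ptr1_kron, Matrix.trace_one, Matrix.add_kronecker,
    Matrix.kronecker_add, Matrix.smul_kronecker, Matrix.smul_kronecker, Matrix.kronecker_smul, Matrix.kronecker_smul,
    Matrix.one_kronecker_one, smul_add, add_smul]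
  abel

theorem FF_tau (X : Matrix (κ × κ) (κ × κ) K) :
    FF (tau κ K * X * tau κ K) = tau κ K * FF X * tau κ K := by
  have e1 : tau κ K * (tau κ K * X * tau κ K) * tau κ K = X := by
    simp only [mul_assoc]
    rw [tau_mul_tau, mul_one, ← mul_assoc, tau_mul_tau, one_mul]
  rw [FF_apply, FF_apply, mul_add, add_mul, tau_kron_tau, tau_kron_tau, ptr1_eq, e1, ← ptr1_eq, add_comm]

end ring

/-! ### the change of basis -/

section cx

/-- `(1 + i) / 2` -/
noncomputable def al : ℂ := ⟨1 / 2, 1 / 2⟩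

/-- `(1 - i) / 2` -/
noncomputable def be : ℂ := ⟨1 / 2, -1 / 2⟩

theorem al_mul_be : al * be = 1 / 2 := by
  apply Complex.ext <;> simp [al, be] <;> norm_num

theorem al_sq : al * al = Complex.I / 2 := by
  apply Complex.ext <;> simp [al] <;> norm_num

theorem be_sq : be * be = -(Complex.I / 2) := by
  apply Complex.ext <;> simp [be] <;> norm_num

theorem al_add_be : al + be = 1 := by
  apply Complex.ext <;> simp [al, be] <;> norm_num

theorem conj_al : starRingEnd ℂ al = be := by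
  apply Complex.ext <;> simp [al, be] <;> norm_num

theorem conj_be : starRingEnd ℂ be = al := by
  apply Complex.ext <;> simp [al, be] <;> norm_num

variable (κ)

/-- from matrices `M` to `Y = (M + Mᵀ) / 2 + i (M - Mᵀ) / 2` -/
noncomputable def Ph : Matrix (κ × κ) (κ × κ) ℂ := al • 1 + be • tau κ ℂ

/-- the inverse of `Ph` -/
noncomputable def Phi' : Matrix (κ × κ) (κ × κ) ℂ := be • 1 + al • tau κ ℂ

theorem Ph_mul : Ph κ * Phi' κ = 1 := by
  unfold Ph Phi'
  simp only [add_mul, mul_add, smul_mul_assoc, mul_smul_comm, one_mul, mul_one, tau_mul_tau, smul_smul, smul_add]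
  rw [mul_comm be al, al_mul_be, al_sq, be_sq]
  module

theorem Phi'_mul : Phi' κ * Ph κ = 1 := by
  unfold Ph Phi'
  simp only [add_mul, mul_add, smul_mul_assoc, mul_smul_comm, one_mul, mul_one, tau_mul_tau, smul_smul, smul_add]
  rw [mul_comm be al, al_mul_be, al_sq, be_sq]
  module

theorem Ph_tau : Ph κ * tau κ ℂ = Phi' κ := by
  unfold Ph Phi'
  simp only [add_mul, smul_mul_assoc, one_mul, tau_mul_tau]
  abel

theorem tau_Ph : tau κ ℂ * Ph κ = Phi' κ := by
  unfold Ph Phi'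
  simp only [mul_add, mul_smul_comm, mul_one, tau_mul_tau]
  abel

theorem Ph_conj : (Ph κ).map (starRingEnd ℂ) = Phi' κ := by
  unfold Ph Phi'
  ext a b
  simp only [Matrix.map_apply, Matrix.add_apply, Matrix.smul_apply, smul_eq_mul, map_add, map_mul, conj_al, conj_be]
  simp only [Matrix.one_apply, tau, Matrix.of_apply, apply_ite (starRingEnd ℂ), map_one, map_zero]

theorem Phi'_conj : (Phi' κ).map (starRingEnd ℂ) = Ph κ := by
  unfold Ph Phi'
  ext a b
  simp only [Matrix.map_apply, Matrix.add_apply, Matrix.smul_apply, smul_eq_mul, map_add, map_mul, conj_al, conj_be]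
  simp only [Matrix.one_apply, tau, Matrix.of_apply, apply_ite (starRingEnd ℂ), map_one, map_zero]

theorem Ph_transpose : (Ph κ)ᵀ = Ph κ := by
  unfold Ph
  rw [Matrix.transpose_add, Matrix.transpose_smul, Matrix.transpose_smul, tau_transpose, Matrix.transpose_one]

theorem Phi'_transpose : (Phi' κ)ᵀ = Phi' κ := by
  unfold Phi'
  rw [Matrix.transpose_add, Matrix.transpose_smul, Matrix.transpose_smul, tau_transpose, Matrix.transpose_one]

variable {κ}

/-- the rational form of `FF` -/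
noncomputable def FR {K : Type*} [Field K] :
    Matrix (κ × κ) (κ × κ) K →ₗ[K] Matrix (κ × κ) (κ × κ) K where
  toFun X := (1 / 2 : K) • (FF X + tau κ K * FF X * tau κ K + FF (X * tau κ K) * tau κ K - tau κ K * FF (X * tau κ K))
  map_add' X Y := by
    simp only [map_add, add_mul, mul_add]
    rw [← smul_add]
    congr 1
    abel
  map_smul' c X := by
    simp only [smul_mul_assoc, map_smul, mul_smul_comm, RingHom.id_apply]
    rw [smul_comm c (1 / 2 : K)]
    congr 1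
    simp only [smul_add, smul_sub]

theorem t_left (Z : Matrix (κ × κ) (κ × κ) ℂ) : tau κ ℂ * (tau κ ℂ * Z) = Z := by
  rw [← mul_assoc, tau_mul_tau, one_mul]

theorem Ph_conj_eq (X : Matrix (κ × κ) (κ × κ) ℂ) : Ph κ * X * Phi' κ = (1 / 2 : ℂ) • (X + tau κ ℂ * (X * tau κ ℂ)) +
    (Complex.I / 2) • (X * tau κ ℂ - tau κ ℂ * X) := by
  unfold Ph Phi'
  simp only [add_mul, mul_add, smul_mul_assoc, mul_smul_comm, one_mul, mul_one, smul_smul, smul_add, mul_assoc]
  rw [mul_comm be al, al_mul_be, al_sq, be_sq]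
  module

theorem Phi'_conj_eq (X : Matrix (κ × κ) (κ × κ) ℂ) : Phi' κ * X * Ph κ =
    (1 / 2 : ℂ) • (X + tau κ ℂ * (X * tau κ ℂ)) + (Complex.I / 2) • (tau κ ℂ * X - X * tau κ ℂ) := by
  unfold Ph Phi'
  simp only [add_mul, mul_add, smul_mul_assoc, mul_smul_comm, one_mul, mul_one, smul_smul, smul_add, mul_assoc]
  rw [mul_comm be al, al_mul_be, al_sq, be_sq]
  module

theorem FR_eq (X : Matrix (κ × κ) (κ × κ) ℂ) : FR X = Phi' κ * FF (Ph κ * X * Phi' κ) * Ph κ := by
  have e1 : FF (tau κ ℂ * (X * tau κ ℂ)) = tau κ ℂ * (FF X * tau κ ℂ) := by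
    rw [← mul_assoc, FF_tau, mul_assoc]
  have e2 : FF (tau κ ℂ * X) = tau κ ℂ * (FF (X * tau κ ℂ) * tau κ ℂ) := by
    rw [← mul_assoc (tau κ ℂ), ← FF_tau]
    congr 1
    rw [mul_assoc, mul_assoc X, tau_mul_tau, mul_one]
  rw [Ph_conj_eq]
  simp only [map_add, map_sub, map_smul, e1, e2]
  rw [Phi'_conj_eq]
  change (1 / 2 : ℂ) • (FF X + tau κ ℂ * FF X * tau κ ℂ + FF (X * tau κ ℂ) * tau κ ℂ -
    tau κ ℂ * FF (X * tau κ ℂ)) = _
  generalize FF X = L
  generalize FF (X * tau κ ℂ) = K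
  have hI : Complex.I / 2 * (Complex.I / 2) = -(1 / 4) := by
    have := Complex.I_mul_I
    linear_combination (1 / 4 : ℂ) * this
  simp only [add_mul, mul_add, smul_mul_assoc, mul_smul_comm, smul_smul, mul_sub, sub_mul,
    mul_assoc, tau_mul_tau, t_left, smul_add, smul_sub, mul_one, hI]
  module

end cx

end MH.Her27
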