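import Pool.Agent.Helper27.PGN.Her

/-!
Project PGN (MP_b8862a_ag): Hermitian forms. A matrix that commutes with the rank one operators of the isotropic
vectors; polynomial identities.
-/

set_option linter.unusedSectionVars false

open Matrix Kronecker Polynomial

namespace MH.Her27

variable {κ : Type*} [Fintype κ] [DecidableEq κ]

section ring
variable {K L : Type*} [CommRing K] [CommRing L]

/-- the Hermitian form -/
def qq (o : κ) (z z' : κ → K) : K := ∑ i, sg K o i * z i * z' i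

/-- the matrix `z z'ᵀ H` -/
def MM (o : κ) (z z' : κ → K) : Matrix κ κ K := Matrix.of fun i j => z i * z' j * sg K o j

theorem MM_apply (o : κ) (z z' : κ → K) (i j : κ) : MM o z z' i j = z i * z' j * sg K o j := rfl

theorem MM_mul (o : κ) (z z' w w' : κ → K) : MM o z z' * MM o w w' = (qq o w z') • MM o z w' := by
  ext i j
  simp only [Matrix.mul_apply, MM_apply, Matrix.smul_apply, smul_eq_mul, qq, Finset.sum_mul]
  refine Finset.sum_congr rfl fun k _ => ?_
  ring

theorem HH_MM (o : κ) (z z' : κ → K) : HH K o * MM o z z' = (MM o z' z)ᵀ * HH K o := by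
  ext i j
  unfold HH
  rw [Matrix.diagonal_mul, Matrix.mul_diagonal, Matrix.transpose_apply, MM_apply, MM_apply]
  ring

theorem qq_map (f : K →+* L) (o : κ) (z z' : κ → K) : f (qq o z z') = qq o (f ∘ z) (f ∘ z') := by
  unfold qq
  rw [map_sum]
  refine Finset.sum_congr rfl fun i _ => ?_
  rw [map_mul, map_mul, sg_map]
  rfl

theorem qq_comm (o : κ) (z z' : κ → K) : qq o z z' = qq o z' z := by
  unfold qq
  refine Finset.sum_congr rfl fun i _ => ?_
  ring

theorem MM_map (f : K →+* L) (o : κ) (z z' : κ → K) : (MM o z z').map f = MM o (f ∘ z) (f ∘ z') := by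
  ext i j
  rw [Matrix.map_apply, MM_apply, MM_apply, map_mul, map_mul, sg_map]
  rfl

/-- the vector `2 z'_o z + q e_o` -/
def ut (o : κ) (z z' : κ → K) : κ → K := fun i => 2 * z' o * z i + (if i = o then qq o z z' else 0)

theorem ut_map (f : K →+* L) (o : κ) (z z' : κ → K) : f ∘ ut o z z' = ut o (f ∘ z) (f ∘ z') := by
  funext i
  simp only [ut, Function.comp_apply, map_add, map_mul, map_ofNat, apply_ite f, map_zero, qq_map]

/-- the polynomial form of the projection -/
def RR (o : κ) (z z' : κ → K) : Matrix (κ × κ) (κ × κ) K :=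
  MM o (ut o z z') (ut o z' z) ⊗ₖ ((qq o z z') ^ 2 • (1 : Matrix κ κ K) + MM o (ut o z' z) (ut o z z'))

theorem RR_map (f : K →+* L) (o : κ) (z z' : κ → K) : (RR o z z').map f = RR o (f ∘ z) (f ∘ z') := by
  have h1 := MM_map f o (ut o z z') (ut o z' z)
  have h2 := MM_map f o (ut o z' z) (ut o z z')
  rw [ut_map, ut_map] at h1 h2
  ext a b
  have g1 := congrFun (congrFun h1 a.1) b.1
  have g2 := congrFun (congrFun h2 a.2) b.2
  rw [Matrix.map_apply] at g1 g2
  simp only [RR, Matrix.map_apply, kroneckerMap_apply, Matrix.add_apply, Matrix.smul_apply, smul_eq_mul, map_mul,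
    map_add, map_pow, qq_map, g1, g2, Matrix.one_apply, apply_ite f, map_one, map_zero]

end ring

/-- a polynomial identity on a small real segment holds at the end of the ray -/
theorem ext_ray (o : κ) (B : Matrix (κ × κ) (κ × κ) ℂ) {W : Set (κ → ℂ)} (hW : IsOpen W) {z0 : κ → ℂ} (h0 : z0 ∈ W)
    (h : ∀ z ∈ W, B * RR o z (star z) = RR o z (star z) * B) (z1 : κ → ℂ) :
    B * RR o z1 (star z1) = RR o z1 (star z1) * B := by
  let zX : κ → ℂ[X] := fun i => C (z0 i) + X * C (z1 i - z0 i)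
  let zX' : κ → ℂ[X] := fun i => C (star (z0 i)) + X * C (star (z1 i - z0 i))
  let D : Matrix (κ × κ) (κ × κ) ℂ[X] := B.map (C : ℂ →+* ℂ[X]) * RR o zX zX' - RR o zX zX' * B.map (C : ℂ →+* ℂ[X])
  have hev : ∀ τ : ℝ, D.map (evalRingHom (τ : ℂ)) =
      B * RR o (fun i => z0 i + τ * (z1 i - z0 i)) (star fun i => z0 i + τ * (z1 i - z0 i)) -
        RR o (fun i => z0 i + τ * (z1 i - z0 i)) (star fun i => z0 i + τ * (z1 i - z0 i)) * B := by
    intro τ
    have e1 : (RR o zX zX').map (evalRingHom (τ : ℂ)) =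
        RR o (fun i => z0 i + τ * (z1 i - z0 i)) (star fun i => z0 i + τ * (z1 i - z0 i)) := by
      rw [RR_map]
      congr 1
      · funext i
        simp [zX]
      · funext i
        simp [zX']
    have e2 : (B.map (C : ℂ →+* ℂ[X])).map (evalRingHom (τ : ℂ)) = B := by
      ext a b
      simp
    have e3 : D.map (evalRingHom (τ : ℂ)) = (B.map (C : ℂ →+* ℂ[X]) * RR o zX zX').map (evalRingHom (τ : ℂ)) -
        (RR o zX zX' * B.map (C : ℂ →+* ℂ[X])).map (evalRingHom (τ : ℂ)) := by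
      ext a b
      simp only [D, Matrix.map_apply, Matrix.sub_apply, map_sub]
    rw [e3, Matrix.map_mul, Matrix.map_mul, e1, e2]
  have hcont : Continuous fun τ : ℝ => (fun i => z0 i + τ * (z1 i - z0 i) : κ → ℂ) := by fun_prop
  have hopen : IsOpen {τ : ℝ | (fun i => z0 i + τ * (z1 i - z0 i) : κ → ℂ) ∈ W} := hW.preimage hcont
  have hmem : (0 : ℝ) ∈ {τ : ℝ | (fun i => z0 i + τ * (z1 i - z0 i) : κ → ℂ) ∈ W} := by
    simpa using h0
  have hinf : {τ : ℝ | (fun i => z0 i + τ * (z1 i - z0 i) : κ → ℂ) ∈ W}.Infinite := by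
    exact infinite_of_mem_nhds (0 : ℝ) (hopen.mem_nhds hmem)
  have hD : D = 0 := by
    ext1 a b
    refine Polynomial.eq_zero_of_infinite_isRoot _ ?_
    refine Set.Infinite.mono ?_ (hinf.image (Complex.ofReal_injective.injOn))
    rintro _ ⟨τ, hτ, rfl⟩
    have h1 := hev τ
    rw [h _ hτ, sub_self] at h1
    have h2 := congrFun (congrFun h1 a) b
    rw [Matrix.map_apply, Matrix.zero_apply] at h2
    exact h2
  have h1 := hev 1
  rw [hD] at h1
  have e4 : (fun i => z0 i + ((1 : ℝ) : ℂ) * (z1 i - z0 i)) = z1 := by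
    funext i
    simp
  rw [e4] at h1
  have e5 : (0 : Matrix (κ × κ) (κ × κ) ℂ[X]).map (evalRingHom (((1 : ℝ)) : ℂ)) = 0 := by
    ext a b
    simp
  rw [e5] at h1
  exact (sub_eq_zero.1 h1.symm)

/-! ### isotropic vectors -/

/-- the vector of the matrix `z z*` -/
def xi (z : κ → ℂ) : κ × κ → ℂ := fun a => z a.1 * star (z a.2)

/-- the dual vector -/
def et (o : κ) (z : κ → ℂ) : κ × κ → ℂ := fun a => star (z a.1) * sg ℂ o a.1 * (z a.2 * sg ℂ o a.2)

theorem RR_iso (o : κ) {z : κ → ℂ} (hq : qq o z (star z) = 0) :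
    RR o z (star z) = (16 * (z o * star (z o)) ^ 2) • vecMulVec (xi z) (et o z) := by
  have hq' : qq o (star z) z = 0 := by rw [qq_comm, hq]
  have u1 : ut o z (star z) = fun i => 2 * star (z o) * z i := by
    funext i
    simp only [ut, hq, ite_self, add_zero, Pi.star_apply]
  have u2 : ut o (star z) z = fun i => 2 * z o * star (z i) := by
    funext i
    simp only [ut, hq', ite_self, add_zero, Pi.star_apply]
  ext a b
  unfold RR
  rw [u1, u2, hq]
  simp only [kroneckerMap_apply, MM_apply, Matrix.add_apply, Matrix.smul_apply, vecMulVec_apply, smul_eq_mul, xi, et]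
  ring

theorem eig (o : κ) (B : Matrix (κ × κ) (κ × κ) ℂ) {z : κ → ℂ} (hq : qq o z (star z) = 0) (hz : z o ≠ 0)
    (h : B * RR o z (star z) = RR o z (star z) * B) : ∃ c : ℂ, B *ᵥ xi z = c • xi z ∧ et o z ᵥ* B = c • et o z := by
  rw [RR_iso o hq, mul_smul_comm, smul_mul_assoc] at h
  have hz' : z o * star (z o) ≠ 0 := mul_ne_zero hz (by simpa using hz)
  have hne : (16 * (z o * star (z o)) ^ 2) ≠ 0 := mul_ne_zero (by norm_num) (pow_ne_zero _ hz')
  have h1 : B * vecMulVec (xi z) (et o z) = vecMulVec (xi z) (et o z) * B := smul_right_injective _ hne h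
  rw [Matrix.mul_vecMulVec, Matrix.vecMulVec_mul] at h1
  have h2 : ∀ a b, (B *ᵥ xi z) a * et o z b = xi z a * (et o z ᵥ* B) b := by
    intro a b
    have := congrFun (congrFun h1 a) b
    rwa [vecMulVec_apply, vecMulVec_apply] at this
  have e0 : et o z (o, o) ≠ 0 := by
    have hs : sg ℂ o o = -1 := if_pos rfl
    simp only [et, hs]
    have : star (z o) * -1 * (z o * -1) = z o * star (z o) := by ring
    rw [this]
    exact hz'
  have x0 : xi z (o, o) ≠ 0 := hz'
  refine ⟨(et o z ᵥ* B) (o, o) / et o z (o, o), ?_, ?_⟩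
  · funext a
    rw [Pi.smul_apply, smul_eq_mul]
    have := h2 a (o, o)
    field_simp
    linear_combination this
  · funext b
    rw [Pi.smul_apply, smul_eq_mul]
    have f1 := h2 (o, o) b
    have f2 := h2 (o, o) (o, o)
    field_simp
    apply mul_left_cancel₀ x0
    linear_combination et o z b * f2 - et o z (o, o) * f1

theorem et_dot_xi (o : κ) (z w : κ → ℂ) : et o z ⬝ᵥ xi w = qq o (star z) w * qq o z (star w) := by
  simp only [dotProduct, et, xi, qq, Fintype.sum_prod_type, Finset.sum_mul_sum, Pi.star_apply]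
  refine Finset.sum_congr rfl fun i _ => Finset.sum_congr rfl fun j _ => ?_
  ring

theorem qq_star (o : κ) (z w : κ → ℂ) : star (qq o z w) = qq o (star z) (star w) := by
  unfold qq
  rw [star_sum]
  refine Finset.sum_congr rfl fun i _ => ?_
  simp only [star_mul', Pi.star_apply]
  congr 2
  unfold sg
  split_ifs <;> simp

theorem eig_eq (o : κ) (B : Matrix (κ × κ) (κ × κ) ℂ) {z w : κ → ℂ} {c d : ℂ} (h1 : et o z ᵥ* B = c • et o z)
    (h2 : B *ᵥ xi w = d • xi w) (h : qq o z (star w) ≠ 0) : c = d := by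
  have e1 : et o z ⬝ᵥ xi w ≠ 0 := by
    rw [et_dot_xi]
    refine mul_ne_zero ?_ h
    have := qq_star o z (star w)
    rw [star_star] at this
    rw [← this]
    simpa using h
  have e2 := Matrix.dotProduct_mulVec (et o z) B (xi w)
  rw [h1, h2, dotProduct_smul, smul_dotProduct, smul_eq_mul, smul_eq_mul] at e2
  exact (mul_right_cancel₀ e1 e2).symm

/-- the vector with the entries `x`, `y`, `w` at `o`, `j`, `l` -/
def v3 (o j l : κ) (x y w : ℂ) : κ → ℂ := fun i => (if i = o then x else 0) + (if i = j then y else 0) +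
  (if i = l then w else 0)

theorem mulVec_v3 (C : Matrix (κ × κ) (κ × κ) ℂ) (o j l : κ) (x y w : ℂ) (a : κ × κ) :
    (C *ᵥ xi (v3 o j l x y w)) a =
      C a (o, o) * (x * star x) + C a (o, j) * (x * star y) + C a (o, l) * (x * star w) +
      (C a (j, o) * (y * star x) + C a (j, j) * (y * star y) + C a (j, l) * (y * star w)) +
      (C a (l, o) * (w * star x) + C a (l, j) * (w * star y) + C a (l, l) * (w * star w)) := by
  simp only [Matrix.mulVec, dotProduct, Fintype.sum_prod_type, xi, v3, star_add, apply_ite star, star_zero, add_mul,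
    mul_add, Finset.sum_add_distrib, ite_mul, mul_ite, zero_mul, mul_zero, Finset.sum_ite_eq', Finset.mem_univ, if_true]
  ring

theorem qq_v3 (o j l : κ) (hj : j ≠ o) (hl : l ≠ o) (z : κ → ℂ) (x y w : ℂ) :
    qq o z (star (v3 o j l x y w)) = -(z o * star x) + z j * star y + z l * star w := by
  simp only [qq, v3, Pi.star_apply, star_add, apply_ite star, star_zero, mul_add, Finset.sum_add_distrib, mul_ite,
    mul_zero, Finset.sum_ite_eq', Finset.mem_univ, if_true]
  simp [sg, hj, hl]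

theorem v3_o {o j l : κ} (hj : j ≠ o) (hl : l ≠ o) (x y w : ℂ) : v3 o j l x y w o = x := by
  simp [v3, hj.symm, hl.symm]

theorem v3_j {o j l : κ} (hj : j ≠ o) (hjl : j ≠ l) (x y w : ℂ) : v3 o j l x y w j = y := by
  simp [v3, hj, hjl]

theorem v3_l {o j l : κ} (hl : l ≠ o) (hjl : j ≠ l) (x y w : ℂ) : v3 o j l x y w l = w := by
  simp [v3, hl, hjl.symm]

/-- a matrix that commutes with all the polynomial projections is a combination of the identity and `c hvᵀ` -/
theorem comm_RR (o : κ) {j0 : κ} (hj0 : j0 ≠ o) (B : Matrix (κ × κ) (κ × κ) ℂ)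
    (h : ∀ z : κ → ℂ, B * RR o z (star z) = RR o z (star z) * B) :
    ∃ (c : ℂ) (v : κ × κ → ℂ), B = c • 1 + vecMulVec v (hv ℂ o) := by
  have q2 : ∀ ε : ℂ, ε * star ε = 1 → qq o (v3 o j0 j0 1 ε 0) (star (v3 o j0 j0 1 ε 0)) = 0 := by
    intro ε hε
    rw [qq_v3 o j0 j0 hj0 hj0]
    have e1 : v3 o j0 j0 1 ε 0 o = 1 := v3_o hj0 hj0 _ _ _
    have e2 : v3 o j0 j0 1 ε 0 j0 = ε := by simp [v3, hj0]
    rw [e1, e2]
    simp only [star_one, star_zero, mul_zero, add_zero, one_mul, hε]
    ring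
  have z1 : v3 o j0 j0 1 1 0 o ≠ 0 := by rw [v3_o hj0 hj0]; exact one_ne_zero
  have z2 : v3 o j0 j0 1 (-1) 0 o ≠ 0 := by rw [v3_o hj0 hj0]; exact one_ne_zero
  obtain ⟨c, hc1, hc2⟩ := eig o B (q2 1 (by simp)) z1 (h _)
  obtain ⟨d, hd1, hd2⟩ := eig o B (q2 (-1) (by simp)) z2 (h _)
  have hcd : c = d := by
    refine eig_eq o B hc2 hd1 ?_
    rw [qq_v3 o j0 j0 hj0 hj0]
    have e1 : v3 o j0 j0 1 1 0 o = 1 := v3_o hj0 hj0 _ _ _
    have e2 : v3 o j0 j0 (1 : ℂ) 1 0 j0 = 1 := by simp [v3, hj0]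
    rw [e1, e2]
    norm_num
  have key : ∀ z : κ → ℂ, qq o z (star z) = 0 → z o ≠ 0 → (B - c • 1) *ᵥ xi z = 0 := by
    intro z hq hz
    obtain ⟨b, hb1, hb2⟩ := eig o B hq hz (h z)
    have hbc : b = c := by
      by_cases h1 : qq o z (star (v3 o j0 j0 1 1 0)) = 0
      · rw [hcd]
        refine eig_eq o B hb2 hd1 fun h2 => hz ?_
        rw [qq_v3 o j0 j0 hj0 hj0] at h1 h2
        simp only [star_one, star_zero, mul_zero, add_zero, mul_one, star_neg, mul_neg] at h1 h2
        linear_combination (-1 / 2 : ℂ) * h1 + (-1 / 2 : ℂ) * h2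
      · exact eig_eq o B hb2 hc1 h1
    rw [Matrix.sub_mulVec, hb1, Matrix.smul_mulVec, Matrix.one_mulVec, hbc, sub_self]
  obtain ⟨C, hC⟩ : ∃ C, C = B - c • (1 : Matrix (κ × κ) (κ × κ) ℂ) := ⟨_, rfl⟩
  rw [← hC] at key
  -- the columns
  have hII : Complex.I * star Complex.I = 1 := by
    rw [Complex.star_def, Complex.conj_I, mul_neg, Complex.I_mul_I, neg_neg]
  have pair : ∀ j : κ, j ≠ o → ∀ a, C a (o, o) + C a (j, j) = 0 ∧ C a (o, j) = 0 ∧ C a (j, o) = 0 := by
    intro j hj a
    have qj : ∀ ε : ℂ, ε * star ε = 1 → qq o (v3 o j j 1 ε 0) (star (v3 o j j 1 ε 0)) = 0 := by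
      intro ε hε
      rw [qq_v3 o j j hj hj]
      have e1 : v3 o j j 1 ε 0 o = 1 := v3_o hj hj _ _ _
      have e2 : v3 o j j 1 ε 0 j = ε := by simp [v3, hj]
      rw [e1, e2]
      simp only [star_one, star_zero, mul_zero, add_zero, one_mul, hε]
      ring
    have t1 := congrFun (key (v3 o j j 1 1 0) (qj 1 (by simp)) (by rw [v3_o hj hj]; exact one_ne_zero)) a
    have t2 := congrFun (key (v3 o j j 1 (-1) 0) (qj (-1) (by simp)) (by rw [v3_o hj hj]; exact one_ne_zero)) a
    have t3 := congrFun (key (v3 o j j 1 Complex.I 0) (qj _ hII) (by rw [v3_o hj hj]; exact one_ne_zero)) a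
    rw [mulVec_v3] at t1 t2 t3
    simp only [star_one, star_zero, mul_zero, add_zero, mul_one, star_neg, mul_neg, neg_neg, zero_mul, one_mul,
      Pi.zero_apply, neg_mul, Complex.star_def, Complex.conj_I, Complex.I_mul_I] at t1 t2 t3
    have s1 : C a (o, o) + C a (j, j) = 0 := by linear_combination (1 / 2 : ℂ) * t1 + (1 / 2 : ℂ) * t2
    have s2 : C a (o, j) + C a (j, o) = 0 := by linear_combination (1 / 2 : ℂ) * t1 - (1 / 2 : ℂ) * t2
    have s3 : C a (j, o) - C a (o, j) = 0 := by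
      apply mul_left_cancel₀ Complex.I_ne_zero
      linear_combination t3 - s1
    refine ⟨s1, ?_, ?_⟩
    · linear_combination (1 / 2 : ℂ) * s2 - (1 / 2 : ℂ) * s3
    · linear_combination (1 / 2 : ℂ) * s2 + (1 / 2 : ℂ) * s3
  have trip : ∀ j l : κ, j ≠ o → l ≠ o → j ≠ l → ∀ a, C a (j, l) = 0 := by
    intro j l hj hl hjl a
    have qj : ∀ ε : ℂ, ε * star ε = 1 → qq o (v3 o j l 5 (3 * ε) 4) (star (v3 o j l 5 (3 * ε) 4)) = 0 := by
      intro ε hε
      rw [qq_v3 o j l hj hl, v3_o hj hl, v3_j hj hjl, v3_l hl hjl]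
      simp only [star_mul', star_ofNat]
      linear_combination 9 * hε
    have t1 := congrFun (key (v3 o j l 5 (3 * 1) 4) (qj 1 (by simp)) (by rw [v3_o hj hl]; norm_num)) a
    have t3 := congrFun (key (v3 o j l 5 (3 * Complex.I) 4) (qj _ hII) (by rw [v3_o hj hl]; norm_num)) a
    obtain ⟨p1, p2, p3⟩ := pair j hj a
    obtain ⟨r1, r2, r3⟩ := pair l hl a
    rw [mulVec_v3, p2, p3, r2, r3] at t1 t3
    simp only [star_mul', star_ofNat, star_one, Pi.zero_apply, Complex.star_def, Complex.conj_I, zero_mul, add_zero,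
      zero_add] at t1 t3
    have hI := Complex.I_mul_I
    have s1 : C a (j, l) + C a (l, j) = 0 := by
      linear_combination (1 / 12 : ℂ) * t1 - (9 / 12 : ℂ) * p1 - (16 / 12 : ℂ) * r1
    have s2 : C a (j, l) - C a (l, j) = 0 := by
      apply mul_left_cancel₀ Complex.I_ne_zero
      linear_combination (1 / 12 : ℂ) * t3 - (9 / 12 : ℂ) * p1 - (16 / 12 : ℂ) * r1 + (9 / 12 : ℂ) * C a (j, j) * hI
    linear_combination (1 / 2 : ℂ) * s1 + (1 / 2 : ℂ) * s2
  refine ⟨c, fun a => -C a (o, o), ?_⟩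
  have e1 : C = vecMulVec (fun a => -C a (o, o)) (hv ℂ o) := by
    ext a b
    rw [vecMulVec_apply, hv_apply]
    obtain ⟨b1, b2⟩ := b
    by_cases h1 : b1 = b2
    · subst h1
      rw [if_pos rfl]
      by_cases h2 : b1 = o
      · subst h2
        simp [sg]
      · simp only [sg, if_neg h2, mul_one]
        linear_combination (pair b1 h2 a).1
    · simp only [if_neg h1, mul_zero]
      by_cases h2 : b1 = o
      · subst h2
        exact (pair b2 (Ne.symm h1) a).2.1
      · by_cases h3 : b2 = o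
        · subst h3
          exact (pair b1 h2 a).2.2
        · exact trip b1 b2 h2 h3 h1 a
  rw [← e1, hC]
  abel

end MH.Her27
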