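import Pool.Agent.Helper27.PGN.End

/-!
Project PGN (MP_b8862a_ag): Hermitian forms. The family of Hodge structures, by unitary reflections.
-/

set_option linter.unusedSectionVars false

open Matrix Kronecker

namespace MH.Her27

variable {κ : Type*} [Fintype κ] [DecidableEq κ]

/-- the unitary reflection `2 z z* H / q - 1` -/
noncomputable def UU (o : κ) (z : κ → ℂ) : Matrix κ κ ℂ := (2 / qq o z (star z)) • MM o z (star z) - 1

/-- its complex conjugate -/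
noncomputable def UV (o : κ) (z : κ → ℂ) : Matrix κ κ ℂ := (2 / qq o z (star z)) • MM o (star z) z - 1

variable {o : κ} {z : κ → ℂ}

theorem qq_real (o : κ) (z : κ → ℂ) : starRingEnd ℂ (qq o z (star z)) = qq o z (star z) := by
  have h := qq_star o z (star z)
  rw [star_star, qq_comm o (star z) z] at h
  exact h

theorem UU_sq (hq : qq o z (star z) ≠ 0) : UU o z * UU o z = 1 := by
  unfold UU
  rw [sub_mul, mul_sub, mul_sub, smul_mul_smul_comm, MM_mul, mul_one, one_mul, mul_one, smul_smul]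
  have e1 : 2 / qq o z (star z) * (2 / qq o z (star z)) * qq o z (star z) = 2 * (2 / qq o z (star z)) := by
    field_simp
  rw [e1, mul_smul, two_smul]
  abel

theorem UV_sq (hq : qq o z (star z) ≠ 0) : UV o z * UV o z = 1 := by
  unfold UV
  rw [sub_mul, mul_sub, mul_sub, smul_mul_smul_comm, MM_mul, mul_one, one_mul, mul_one, smul_smul,
    qq_comm o (star z) z]
  have e1 : 2 / qq o z (star z) * (2 / qq o z (star z)) * qq o z (star z) = 2 * (2 / qq o z (star z)) := by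
    field_simp
  rw [e1, mul_smul, two_smul]
  abel

theorem UU_conj : (UU o z).map (starRingEnd ℂ) = UV o z := by
  ext i j
  simp only [UU, UV, Matrix.map_apply, Matrix.sub_apply, Matrix.smul_apply, smul_eq_mul, map_sub, map_mul, map_div₀,
    qq_real, MM_apply, Pi.star_apply, Matrix.one_apply, apply_ite (starRingEnd ℂ), map_one, map_zero, map_ofNat]
  have h1 : starRingEnd ℂ (sg ℂ o j) = sg ℂ o j := by
    unfold sg
    split_ifs <;> simp
  rw [h1, starRingEnd_apply, starRingEnd_apply, star_star]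

theorem UV_conj : (UV o z).map (starRingEnd ℂ) = UU o z := by
  rw [← UU_conj, Matrix.map_map]
  ext i j
  simp

theorem HH_UU : HH ℂ o * UU o z = (UV o z)ᵀ * HH ℂ o := by
  unfold UU UV
  rw [mul_sub, mul_smul_comm, HH_MM, mul_one, Matrix.transpose_sub, Matrix.transpose_smul, Matrix.transpose_one,
    sub_mul, smul_mul_assoc, one_mul]

theorem HH_UV : HH ℂ o * UV o z = (UU o z)ᵀ * HH ℂ o := by
  unfold UU UV
  rw [mul_sub, mul_smul_comm, HH_MM, mul_one, Matrix.transpose_sub, Matrix.transpose_smul, Matrix.transpose_one,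
    sub_mul, smul_mul_assoc, one_mul]

theorem UHV (hq : qq o z (star z) ≠ 0) : UU o z * HH ℂ o * (UV o z)ᵀ = HH ℂ o := by
  have h1 : (UV o z)ᵀ = HH ℂ o * UU o z * HH ℂ o := by
    rw [HH_UU, mul_assoc, HH_mul_HH, mul_one]
  rw [h1]
  calc UU o z * HH ℂ o * (HH ℂ o * UU o z * HH ℂ o) = UU o z * (HH ℂ o * HH ℂ o) * UU o z * HH ℂ o := by
        simp only [mul_assoc]
    _ = HH ℂ o := by rw [HH_mul_HH, mul_one, UU_sq hq, one_mul]

theorem VHU (hq : qq o z (star z) ≠ 0) : (UU o z)ᵀ * HH ℂ o * UV o z = HH ℂ o := by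
  rw [← HH_UV, mul_assoc, UV_sq hq, mul_one]

theorem VHU' (hq : qq o z (star z) ≠ 0) : (UV o z)ᵀ * HH ℂ o * UU o z = HH ℂ o := by
  rw [← HH_UU, mul_assoc, UU_sq hq, mul_one]

/-- the real isometry -/
noncomputable def GG (o : κ) (z : κ → ℂ) : Matrix (κ × κ) (κ × κ) ℂ := Phi' κ * (UU o z ⊗ₖ UV o z) * Ph κ

theorem GG_sq (hq : qq o z (star z) ≠ 0) : GG o z * GG o z = 1 := by
  unfold GG
  calc Phi' κ * (UU o z ⊗ₖ UV o z) * Ph κ * (Phi' κ * (UU o z ⊗ₖ UV o z) * Ph κ) =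
        Phi' κ * ((UU o z ⊗ₖ UV o z) * (Ph κ * Phi' κ) * (UU o z ⊗ₖ UV o z)) * Ph κ := by simp only [mul_assoc]
    _ = 1 := by
      rw [Ph_mul, mul_one, ← Matrix.mul_kronecker_mul, UU_sq hq, UV_sq hq, Matrix.one_kronecker_one, mul_one,
        Phi'_mul]

theorem GG_conj : (GG o z).map (starRingEnd ℂ) = GG o z := by
  unfold GG
  rw [Matrix.map_mul, Matrix.map_mul, Phi'_conj, Ph_conj, map_kron, UU_conj, UV_conj, ← tau_kron_tau]
  have e1 : Ph κ * tau κ ℂ = Phi' κ := Ph_tau κ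
  have e2 : tau κ ℂ * Phi' κ = Ph κ := by
    rw [← tau_Ph, ← mul_assoc, tau_mul_tau, one_mul]
  calc Ph κ * (tau κ ℂ * (UU o z ⊗ₖ UV o z) * tau κ ℂ) * Phi' κ =
        (Ph κ * tau κ ℂ) * (UU o z ⊗ₖ UV o z) * (tau κ ℂ * Phi' κ) := by simp only [mul_assoc]
    _ = _ := by rw [e1, e2]

theorem GG_QQ (hq : qq o z (star z) ≠ 0) : (GG o z)ᵀ * toC (QQ ℚ o) * GG o z = toC (QQ ℚ o) := by
  rw [toC_QQ]
  unfold GG
  rw [Matrix.transpose_mul, Matrix.transpose_mul, Ph_transpose, Phi'_transpose, ← Matrix.kroneckerMap_transpose]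
  have e2 : Phi' κ * QQ ℂ o * Phi' κ = QQ ℂ o * tau κ ℂ := by
    rw [← QQ_Phi', mul_assoc, Phi'_Phi']
  calc Ph κ * ((UU o z)ᵀ ⊗ₖ (UV o z)ᵀ * Phi' κ) * QQ ℂ o * (Phi' κ * (UU o z ⊗ₖ UV o z) * Ph κ) =
        Ph κ * ((UU o z)ᵀ ⊗ₖ (UV o z)ᵀ * (Phi' κ * QQ ℂ o * Phi' κ) * (UU o z ⊗ₖ UV o z)) * Ph κ := by
          simp only [mul_assoc]
    _ = Ph κ * ((UU o z)ᵀ ⊗ₖ (UV o z)ᵀ * QQ ℂ o * (tau κ ℂ * (UU o z ⊗ₖ UV o z))) * Ph κ := by
          rw [e2]; simp only [mul_assoc]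
    _ = Ph κ * ((UU o z)ᵀ ⊗ₖ (UV o z)ᵀ * QQ ℂ o * (UV o z ⊗ₖ UU o z)) * (tau κ ℂ * Ph κ) := by
          rw [tau_kron]; simp only [mul_assoc]
    _ = Ph κ * QQ ℂ o * Phi' κ := by
          unfold QQ
          rw [← Matrix.mul_kronecker_mul, ← Matrix.mul_kronecker_mul, VHU hq, VHU' hq, tau_Ph]
    _ = QQ ℂ o := by rw [← QQ_Ph, mul_assoc, Ph_mul, mul_one]

theorem GG_ZZ (hq : qq o z (star z) ≠ 0) : GG o z * ZZ ℂ o = ZZ ℂ o := by
  unfold GG
  rw [mul_assoc, Ph_ZZ, mul_assoc]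
  have e1 : (UU o z ⊗ₖ UV o z) * ZZ ℂ o = ZZ ℂ o := by
    unfold ZZ
    rw [Matrix.mul_vecMulVec]
    congr 1
    have := kron_mulVec (UU o z) (UV o z) (HH ℂ o)
    rw [UHV hq] at this
    exact this
  rw [e1, Phi'_ZZ]

theorem ZZ_GG (hq : qq o z (star z) ≠ 0) : ZZ ℂ o * GG o z = ZZ ℂ o := by
  unfold GG
  rw [← mul_assoc, ← mul_assoc]
  have e0 : ZZ ℂ o * Phi' κ = ZZ ℂ o := by
    conv_lhs => rw [← ZZ_Ph o]
    rw [mul_assoc, Ph_mul, mul_one]
  have e1 : (UU o z ⊗ₖ UV o z)ᵀ * ZZ ℂ o = ZZ ℂ o := by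
    unfold ZZ
    rw [Matrix.mul_vecMulVec, ← Matrix.kroneckerMap_transpose]
    congr 1
    have := kron_mulVec (UU o z)ᵀ (UV o z)ᵀ (HH ℂ o)
    rw [Matrix.transpose_transpose, VHU hq] at this
    exact this
  have e2 : ZZ ℂ o * (UU o z ⊗ₖ UV o z) = ZZ ℂ o := by
    have h2 := congrArg Matrix.transpose e1
    rw [Matrix.transpose_mul, ZZ_transpose, Matrix.transpose_transpose] at h2
    exact h2
  rw [e0, e2, ZZ_Ph]

theorem GG_ee (hq : qq o z (star z) ≠ 0) : GG o z * toC (ee o) * GG o z = toC (ee o) := by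
  rw [toC_ee, mul_sub, sub_mul, mul_one, GG_sq hq, mul_smul_comm, smul_mul_assoc, GG_ZZ hq, ZZ_GG hq]

/-- the Hodge structure at the point `z` -/
theorem fam_big (hq : qq o z (star z) ≠ 0) : BigHW27 (QQ ℚ o) (ee o) (fun p => GG o z * P0 o p * GG o z) :=
  (base_big o).conj27 (GG_sq hq) (GG_sq hq) GG_conj (GG_QQ hq) (GG_ee hq)

theorem UEU (hq : qq o z (star z) ≠ 0) : UU o z * EE ℂ o * UU o z =
    (-((qq o z (star z))⁻¹ ^ 2)) • MM o (ut o z (star z)) (ut o (star z) z) := by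
  have hs : sg ℂ o o = -1 := if_pos rfl
  ext i j
  have e1 : (UU o z * EE ℂ o * UU o z) i j = UU o z i o * UU o z o j := by
    unfold EE
    rw [Matrix.mul_apply, Finset.sum_eq_single o]
    · rw [Matrix.mul_diagonal, if_pos rfl, mul_one]
    · intro k _ hk
      rw [Matrix.mul_diagonal, if_neg hk, mul_zero, zero_mul]
    · intro h
      exact absurd (Finset.mem_univ _) h
  rw [e1]
  simp only [UU, Matrix.sub_apply, Matrix.smul_apply, MM_apply, smul_eq_mul, Matrix.one_apply, ut, Pi.star_apply, hs,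
    qq_comm o (star z) z]
  by_cases h1 : i = o <;> by_cases h2 : j = o
  · subst h1
    subst h2
    simp only [if_true, hs]
    field_simp
    ring
  · subst h1
    simp only [if_true, if_neg h2, if_neg (Ne.symm h2)]
    field_simp
    ring
  · subst h2
    simp only [if_true, if_neg h1, hs]
    field_simp
    ring
  · simp only [if_neg h1, if_neg h2, if_neg (Ne.symm h2)]
    field_simp
    ring

theorem VEV (hq : qq o z (star z) ≠ 0) : UV o z * EE ℂ o * UV o z =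
    (-((qq o z (star z))⁻¹ ^ 2)) • MM o (ut o (star z) z) (ut o z (star z)) := by
  have h1 : UV o z = UU o (star z) := by
    unfold UU UV
    rw [star_star, qq_comm o (star z) z]
  have h2 : qq o (star z) (star (star z)) ≠ 0 := by rwa [star_star, qq_comm]
  rw [h1, UEU h2, star_star, qq_comm o (star z) z]

theorem P2_eq (hq : qq o z (star z) ≠ 0) : Ph κ * (GG o z * P0 o 2 * GG o z) * Phi' κ =
    (-((qq o z (star z))⁻¹ ^ 4)) • RR o z (star z) := by
  have e1 : Ph κ * (GG o z * P0 o 2 * GG o z) * Phi' κ =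
      (UU o z ⊗ₖ UV o z) * R0 o 2 * (UU o z ⊗ₖ UV o z) := by
    unfold GG P0
    calc Ph κ * (Phi' κ * (UU o z ⊗ₖ UV o z) * Ph κ * (Phi' κ * R0 o 2 * Ph κ) *
          (Phi' κ * (UU o z ⊗ₖ UV o z) * Ph κ)) * Phi' κ =
          (Ph κ * Phi' κ) * (UU o z ⊗ₖ UV o z) * (Ph κ * Phi' κ) * R0 o 2 * (Ph κ * Phi' κ) *
            (UU o z ⊗ₖ UV o z) * (Ph κ * Phi' κ) := by simp only [mul_assoc]
      _ = _ := by simp only [Ph_mul, mul_one, one_mul]
  have e2 : UV o z * (1 - EE ℂ o) * UV o z = 1 - UV o z * EE ℂ o * UV o z := by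
    rw [mul_sub, sub_mul, mul_one, UV_sq hq]
  rw [e1, R0_two, ← Matrix.mul_kronecker_mul, ← Matrix.mul_kronecker_mul, e2, UEU hq, VEV hq]
  ext a b
  unfold RR
  simp only [kroneckerMap_apply, Matrix.sub_apply, Matrix.add_apply, Matrix.smul_apply, smul_eq_mul]
  field_simp
  ring

end MH.Her27
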